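import Pool.Agent.U52.RH.Walk

set_option autoImplicit false

/-! The exponential law satisfies the conditions on the steps of the walk. -/

namespace Pool.Agent.U52.RH

open Complex MeasureTheory Filter Topology Set ProbabilityTheory
open scoped ENNReal NNReal

noncomputable section

lemma pdf_eq {r : ℝ} (hr : 0 < r) (x : ℝ) :
    (gammaPDF 1 r x).toReal = (Ici (0:ℝ)).indicator (fun x => r * Real.exp (-(r * x))) x := by
  have h : gammaPDF 1 r x = ENNReal.ofReal (if 0 ≤ x then r * Real.exp (-(r * x)) else 0) := exponentialPDF_eq r x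
  rw [h, indicator_apply]
  simp only [mem_Ici]
  split_ifs with h0
  · rw [ENNReal.toReal_ofReal (by positivity)]
  · simp

lemma pdf_lt (r x : ℝ) : gammaPDF 1 r x < ∞ := ENNReal.ofReal_lt_top

lemma pdf_meas (r : ℝ) : Measurable (gammaPDF 1 r) := (measurable_gammaPDFReal 1 r).ennreal_ofReal

lemma integral_exp_law {E : Type*} [NormedAddCommGroup E] [NormedSpace ℝ E] {r : ℝ} (hr : 0 < r) (g : ℝ → E) :
    ∫ x, g x ∂(expMeasure r) = ∫ x in Ioi (0:ℝ), (r * Real.exp (-(r * x))) • g x := by
  unfold expMeasure gammaMeasure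
  rw [integral_withDensity_eq_integral_toReal_smul (pdf_meas r) (ae_of_all _ (pdf_lt r)),
    ← integral_Ici_eq_integral_Ioi, ← integral_indicator measurableSet_Ici]
  congr 1
  funext x
  rw [pdf_eq hr]
  by_cases hx : x ∈ Ici (0:ℝ)
  · rw [indicator_of_mem hx, indicator_of_mem hx]
  · rw [indicator_of_notMem hx, indicator_of_notMem hx, zero_smul]

lemma gamma_two {r : ℝ} (hr : 0 < r) : ∫ t : ℝ in Ioi 0, t * Real.exp (-(r * t)) = (1 / r) ^ 2 := by
  have h := Real.integral_rpow_mul_exp_neg_mul_Ioi (a := 2) (by norm_num) hr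
  rw [Real.Gamma_two, mul_one] at h
  have e : ((1 / r : ℝ) ^ (2:ℝ)) = (1 / r) ^ 2 := by
    rw [← Real.rpow_natCast]; norm_num
  rw [← e, ← h]
  refine setIntegral_congr_fun measurableSet_Ioi fun t _ => ?_
  norm_num

lemma exp_integrable {r : ℝ} (hr : 0 < r) : Integrable (fun x : ℝ => x) (expMeasure r) := by
  unfold expMeasure gammaMeasure
  rw [integrable_withDensity_iff_integrable_smul₀' (pdf_meas r).aemeasurable (ae_of_all _ (pdf_lt r))]
  have h1 : IntegrableOn (fun t : ℝ => t * Real.exp (-(r * t))) (Ioi 0) := by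
    by_contra hcon
    have h2 := gamma_two hr
    rw [integral_undef hcon] at h2
    have : (0:ℝ) < (1 / r) ^ 2 := by positivity
    linarith
  have h3 : IntegrableOn (fun t : ℝ => t * Real.exp (-(r * t))) (Ici 0) := by
    rwa [integrableOn_Ici_iff_integrableOn_Ioi]
  have h5 : IntegrableOn (fun t : ℝ => r * (t * Real.exp (-(r * t)))) (Ici 0) := Integrable.const_mul h3 r
  have h4 := h5.integrable_indicator measurableSet_Ici
  refine h4.congr (ae_of_all _ fun x => ?_)
  show (Ici (0:ℝ)).indicator (fun t => r * (t * Real.exp (-(r * t)))) x = (gammaPDF 1 r x).toReal • x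
  rw [pdf_eq hr]
  by_cases hx : x ∈ Ici (0:ℝ)
  · rw [indicator_of_mem hx, indicator_of_mem hx, smul_eq_mul]
    ring
  · rw [indicator_of_notMem hx, indicator_of_notMem hx, zero_smul]

lemma exp_mean {r : ℝ} (hr : 0 < r) : ∫ x : ℝ, x ∂(expMeasure r) = 1 / r := by
  rw [integral_exp_law hr]
  have e : ∀ x : ℝ, (r * Real.exp (-(r * x))) • x = r * (x * Real.exp (-(r * x))) := fun x => by
    rw [smul_eq_mul]; ring
  simp only [e]
  rw [integral_const_mul, gamma_two hr]
  field_simp

lemma exp_cf {r : ℝ} (hr : 0 < r) (v : ℝ) : cf (expMeasure r) v = r / (r - I * v) := by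
  unfold cf
  rw [integral_exp_law hr]
  have e : ∀ x : ℝ, (r * Real.exp (-(r * x))) • exp (I * (v * x)) = r * exp ((-r + I * v) * x) := fun x => by
    rw [Complex.real_smul]
    push_cast
    rw [mul_assoc, ← Complex.exp_add]
    congr 2
    ring
  simp only [e]
  rw [integral_const_mul, integral_exp_mul_complex_Ioi (by simpa using hr)]
  have h0 : (r - I * v : ℂ) ≠ 0 := by
    intro h
    have := congrArg Complex.re h
    simp at this
    exact hr.ne' this
  have h1 : (-r + I * v : ℂ) ≠ 0 := by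
    intro h
    apply h0
    rw [← neg_eq_zero, ← h]
    ring
  simp only [ofReal_zero, mul_zero, Complex.exp_zero]
  rw [show (-r + I * v : ℂ) = -(r - I * v) by ring, neg_div_neg_eq]
  ring

lemma exp_cramer {r : ℝ} (hr : 0 < r) (v : ℝ) : 1 / (1 + r) * min 1 |v| ≤ ‖1 - cf (expMeasure r) v‖ := by
  rw [exp_cf hr]
  have h0 : (r - I * v : ℂ) ≠ 0 := by
    intro h
    have := congrArg Complex.re h
    simp at this
    exact hr.ne' this
  have h1 : (1 - r / (r - I * v) : ℂ) = -(I * v) / (r - I * v) := by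
    field_simp
    ring
  have hn : 0 < ‖(r - I * v : ℂ)‖ := norm_pos_iff.2 h0
  rw [h1, norm_div, norm_neg, norm_mul, norm_I, one_mul, Complex.norm_real, Real.norm_eq_abs, le_div_iff₀ hn]
  have h2 : ‖(r - I * v : ℂ)‖ ≤ r + |v| := by
    refine (norm_sub_le _ _).trans ?_
    rw [norm_mul, norm_I, one_mul, Complex.norm_real, Complex.norm_real, Real.norm_eq_abs, Real.norm_eq_abs,
      abs_of_pos hr]
  have hm : 0 ≤ min 1 |v| := le_min zero_le_one (abs_nonneg v)
  have h3 : min 1 |v| * (r + |v|) ≤ |v| * (1 + r) := by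
    rcases le_total 1 |v| with h | h
    · rw [min_eq_left h]
      nlinarith
    · rw [min_eq_right h]
      have := abs_nonneg v
      nlinarith
  calc 1 / (1 + r) * min 1 |v| * ‖(r - I * v : ℂ)‖ ≤ 1 / (1 + r) * min 1 |v| * (r + |v|) := by gcongr
    _ = 1 / (1 + r) * (min 1 |v| * (r + |v|)) := by ring
    _ ≤ 1 / (1 + r) * (|v| * (1 + r)) := by gcongr
    _ = |v| := by field_simp

end

end Pool.Agent.U52.RH
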