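import Pool.Agent.U52.RH.BC
import Pool.Agent.R461.HM.Seq

set_option autoImplicit false

/-! Independent samples: the dilated heights `T x_j` have small character sums, for all real `T`. -/

namespace Pool.Agent.U52.RH

open Complex MeasureTheory Filter Topology Set ProbabilityTheory
open scoped ENNReal NNReal
open Pool.Agent.R461.HM

noncomputable section

lemma exp_diff (v w x : ℝ) : ‖exp (I * (v * x)) - exp (I * (w * x))‖ ≤ |v - w| * |x| := by
  have h1 : exp (I * (v * x)) - exp (I * (w * x)) = exp (I * (w * x)) * (exp (I * ((v - w) * x : ℝ)) - 1) := by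
    rw [mul_sub, ← Complex.exp_add, mul_one]
    congr 2
    push_cast; ring
  rw [h1, norm_mul, show I * ((w : ℂ) * x) = ((w * x : ℝ) : ℂ) * I by push_cast; ring, norm_exp_ofReal_mul_I, one_mul]
  refine (Real.norm_exp_I_mul_ofReal_sub_one_le).trans (le_of_eq ?_)
  rw [Real.norm_eq_abs, abs_mul]

variable {Ω : Type*} [MeasurableSpace Ω] {P : Measure Ω} [IsProbabilityMeasure P] {μ : Measure ℝ} [IsProbabilityMeasure μ]

/-- the heights `T x_j` -/
theorem ae_heights {X : ℕ → Ω → ℝ} (hX : ∀ j, Measurable (X j)) (hind : iIndepFun X P) (hlaw : ∀ j, P.map (X j) = μ)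
    (hsup : ∀ᵐ x ∂μ, x ∈ Icc (1:ℝ) 2) {s K : ℝ} (hs0 : 0 < s) (hs1 : s ≤ 1) (hK : 0 ≤ K)
    (hdec : ∀ u : ℝ, 1 ≤ |u| → ‖∫ x : ℝ, exp (I * (u * x)) ∂μ‖ ≤ K * |u| ^ (-s))
    {κ θ θ₂ : ℝ} (hκ : 0 < κ) (hθ : 0 ≤ θ) (h2 : 0 ≤ θ₂) (h2s : θ₂ < s) (h2κ : 2 * θ₂ < κ) :
    ∀ᵐ ω ∂P, ∃ T₀ : ℝ, Real.exp 1 ≤ T₀ ∧ ∀ T : ℝ, T₀ ≤ T → ∀ J : ℕ, T ^ κ ≤ J →
      Heights T (T ^ (2 * θ)) (T ^ (-θ₂)) (unif J (fun j => T * X j ω)) := by
  obtain ⟨θ', h3, h4⟩ := exists_between (show θ₂ < min s (κ / 2) from lt_min h2s (by linarith))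
  have h4s : θ' < s := h4.trans_le (min_le_left _ _)
  have h4κ : θ' < κ / 2 := h4.trans_le (min_le_right _ _)
  obtain ⟨T₁, hT₁, hdil⟩ := dilated hs0 hs1 hK h4s
  -- the elementary limit
  have t1 : Tendsto (fun T : ℝ => 2 * T ^ (-(θ' - θ₂)) + 8 * θ * (Real.log T / T ^ (1 - θ₂))) atTop (𝓝 (2 * 0 + 8 * θ * 0)) := by
    refine Tendsto.add ((tendsto_rpow_neg_atTop (by linarith)).const_mul _) (Tendsto.const_mul _ ?_)
    exact (isLittleO_log_rpow_atTop (by linarith)).tendsto_div_nhds_zero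
  rw [mul_zero, mul_zero, add_zero] at t1
  obtain ⟨T₂, hT₂⟩ := eventually_atTop.mp (t1.eventually (gt_mem_nhds (show (0:ℝ) < 1 by norm_num)))
  have hXsup : ∀ᵐ ω ∂P, ∀ j, X j ω ∈ Icc (1:ℝ) 2 := by
    rw [ae_all_iff]
    intro j
    have h := hlaw j ▸ hsup
    exact ae_of_ae_map (hX j).aemeasurable h
  filter_upwards [ae_good hX hind hlaw hκ hθ (by linarith : 0 ≤ θ') h4κ, hXsup] with ω ⟨n₀, hn₀, hgood⟩ hxs
  refine ⟨max (max (Real.exp 1) T₁) (max T₂ (n₀ + 1)), (le_max_left _ _).trans (le_max_left _ _), fun T hT J hJ => ?_⟩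
  have hTe : Real.exp 1 ≤ T := ((le_max_left _ _).trans (le_max_left _ _)).trans hT
  have hTa : T₁ ≤ T := ((le_max_right _ _).trans (le_max_left _ _)).trans hT
  have hTb : T₂ ≤ T := ((le_max_left _ _).trans (le_max_right _ _)).trans hT
  have hTc : (n₀:ℝ) + 1 ≤ T := ((le_max_right _ _).trans (le_max_right _ _)).trans hT
  have hT1 : 1 ≤ T := by have := Real.add_one_le_exp 1; linarith
  have hT0 : 0 < T := by linarith
  have hJ1' : (1:ℝ) ≤ J := (Real.one_le_rpow hT1 hκ.le).trans hJ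
  have hJ1 : 1 ≤ J := by exact_mod_cast hJ1'
  have hJ0 : (0:ℝ) < J := by linarith
  set n : ℕ := ⌊T ^ 2⌋₊ with hn
  have hnT : (n:ℝ) ≤ T ^ 2 := Nat.floor_le (by positivity)
  have hnT' : T ^ 2 < (n:ℝ) + 1 := Nat.lt_floor_add_one _
  have hn0 : n₀ ≤ n := by
    refine Nat.le_floor ?_
    have : T ≤ T ^ 2 := le_self_pow₀ hT1 (by norm_num)
    linarith
  have hsq : √(n:ℝ) ≤ T := by
    rw [Real.sqrt_le_left hT0.le]; exact hnT
  have hsq0 : 0 ≤ √(n:ℝ) := Real.sqrt_nonneg _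
  have hdiff : |T - √(n:ℝ)| ≤ 1 / T := by
    rw [abs_of_nonneg (by linarith), le_div_iff₀ hT0]
    have : √(n:ℝ) ^ 2 = n := Real.sq_sqrt (by positivity)
    nlinarith
  refine unif_heights hJ1 (fun j _ => ?_) (fun m l hm hl hml hY => ?_)
  · have := hxs j
    exact ⟨by nlinarith [this.1], by nlinarith [this.2]⟩
  have hm1 : (1:ℝ) ≤ m := by exact_mod_cast hm
  have hl1 : (1:ℝ) ≤ l := by exact_mod_cast hl
  have hm0 : (0:ℝ) < m := by linarith
  have hl0 : (0:ℝ) < l := by linarith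
  have hnJ : (n : ℝ) ^ (κ / 2) ≤ J := by
    refine le_trans ?_ hJ
    calc (n : ℝ) ^ (κ / 2) ≤ (T ^ 2) ^ (κ / 2) := Real.rpow_le_rpow (by positivity) hnT (by positivity)
      _ = T ^ κ := by
          rw [← Real.rpow_natCast, ← Real.rpow_mul hT0.le]
          congr 1; push_cast; ring
  have hml' : (m:ℝ) * l ≤ ((n:ℝ) + 1) ^ θ := by
    refine hY.trans ?_
    calc T ^ (2 * θ) = (T ^ 2) ^ θ := by
          rw [← Real.rpow_natCast, ← Real.rpow_mul hT0.le]
          congr 1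
      _ ≤ _ := Real.rpow_le_rpow (by positivity) hnT'.le hθ
  have g1 := hgood n hn0 J hJ1 hnJ m l hm hl hml'
  have g2 := (hdil T hTa μ inferInstance hsup hdec (T ^ (2 * θ)) (by positivity)).small m l hm hl hml hY
  rw [integral_map (by fun_prop : Measurable fun x : ℝ => T * x).aemeasurable (by fun_prop)] at g2
  set lam := Real.log ((m : ℝ) / l) with hlam
  have hlamb : |lam| ≤ 2 * θ * Real.log T := by
    have e1 : lam = Real.log m - Real.log l := by rw [hlam, Real.log_div hm0.ne' hl0.ne']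
    have e2 : Real.log m + Real.log l ≤ 2 * θ * Real.log T := by
      rw [← Real.log_mul hm0.ne' hl0.ne', ← Real.log_rpow hT0]
      exact Real.log_le_log (by positivity) hY
    have e3 := Real.log_nonneg hm1
    have e4 := Real.log_nonneg hl1
    rw [e1, abs_le]
    constructor <;> linarith
  have hab : 0 ≤ 1 / |lam| := by positivity
  -- comparison of the frequencies `T` and `√n`
  have c0 : |T * lam - √(n:ℝ) * lam| ≤ 2 * θ * Real.log T / T := by
    rw [← sub_mul, abs_mul]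
    calc |T - √(n:ℝ)| * |lam| ≤ 1 / T * (2 * θ * Real.log T) := mul_le_mul hdiff hlamb (abs_nonneg _) (by positivity)
      _ = _ := by ring
  have c1 : ‖∑ j ∈ Finset.range J, exp (I * ((T * lam : ℝ) * X j ω)) -
      ∑ j ∈ Finset.range J, exp (I * ((√(n:ℝ) * lam : ℝ) * X j ω))‖ ≤ J * (2 * (2 * θ * Real.log T / T)) := by
    rw [← Finset.sum_sub_distrib]
    refine (norm_sum_le _ _).trans ?_
    calc ∑ j ∈ Finset.range J, ‖exp (I * ((T * lam : ℝ) * X j ω)) - exp (I * ((√(n:ℝ) * lam : ℝ) * X j ω))‖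
        ≤ ∑ j ∈ Finset.range J, 2 * (2 * θ * Real.log T / T) := by
          refine Finset.sum_le_sum fun j _ => (exp_diff _ _ _).trans ?_
          have hx := hxs j
          have hx2 : |X j ω| ≤ 2 := by rw [abs_le]; exact ⟨by linarith [hx.1], hx.2⟩
          calc _ ≤ (2 * θ * Real.log T / T) * 2 := mul_le_mul c0 hx2 (abs_nonneg _) ((abs_nonneg _).trans c0)
            _ = _ := by ring
      _ = _ := by rw [Finset.sum_const, Finset.card_range, nsmul_eq_mul]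
  have c2 : ‖(∫ x : ℝ, exp (I * ((T * lam : ℝ) * x)) ∂μ) - ∫ x : ℝ, exp (I * ((√(n:ℝ) * lam : ℝ) * x)) ∂μ‖ ≤
      2 * (2 * θ * Real.log T / T) := by
    have i1 : ∀ v : ℝ, Integrable (fun x : ℝ => exp (I * (v * x))) μ := fun v =>
      Integrable.of_bound (by fun_prop) 1 (Eventually.of_forall fun x => by
        rw [show I * ((v : ℂ) * x) = ((v * x : ℝ) : ℂ) * I by push_cast; ring, norm_exp_ofReal_mul_I])
    rw [← integral_sub (i1 _) (i1 _)]
    refine (norm_integral_le_of_norm_le_const (C := 2 * (2 * θ * Real.log T / T)) ?_).trans (le_of_eq (by simp))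
    filter_upwards [hsup] with x hx
    refine (exp_diff _ _ _).trans ?_
    have hx2 : |x| ≤ 2 := by rw [abs_le]; exact ⟨by linarith [hx.1], hx.2⟩
    calc _ ≤ (2 * θ * Real.log T / T) * 2 := mul_le_mul c0 hx2 (abs_nonneg _) ((abs_nonneg _).trans c0)
      _ = _ := by ring
  have g2' : ‖∫ x : ℝ, exp (I * ((T * lam : ℝ) * x)) ∂μ‖ ≤ T ^ (-θ') * (1 + 1 / |lam|) := by
    refine le_trans (le_of_eq ?_) g2
    congr 1
    congr 1
    funext x
    congr 1
    push_cast; ring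
  have g1' : ‖∑ j ∈ Finset.range J, exp (I * ((√(n:ℝ) * lam : ℝ) * X j ω)) -
      J * ∫ x : ℝ, exp (I * ((√(n:ℝ) * lam : ℝ) * x)) ∂μ‖ ≤ J * T ^ (-θ') := by
    refine g1.trans (mul_le_mul_of_nonneg_left ?_ hJ0.le)
    calc ((n:ℝ) + 1) ^ (-(θ' / 2)) ≤ (T ^ 2) ^ (-(θ' / 2)) :=
          Real.rpow_le_rpow_of_nonpos (by positivity) hnT'.le (by linarith)
      _ = T ^ (-θ') := by
          rw [← Real.rpow_natCast, ← Real.rpow_mul hT0.le]
          congr 1; push_cast; ring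
  have e0 : ∑ j ∈ Finset.range J, exp (I * (((T * X j ω : ℝ) : ℂ) * (lam : ℂ))) =
      ∑ j ∈ Finset.range J, exp (I * ((T * lam : ℝ) * X j ω)) := by
    refine Finset.sum_congr rfl fun j _ => ?_
    congr 1
    push_cast; ring
  rw [e0]
  set A := ∑ j ∈ Finset.range J, exp (I * ((T * lam : ℝ) * X j ω))
  set B := ∑ j ∈ Finset.range J, exp (I * ((√(n:ℝ) * lam : ℝ) * X j ω))
  set a := ∫ x : ℝ, exp (I * ((T * lam : ℝ) * x)) ∂μ
  set b := ∫ x : ℝ, exp (I * ((√(n:ℝ) * lam : ℝ) * x)) ∂μ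
  have hJn : ‖(J : ℂ)‖ = J := Complex.norm_natCast J
  have hsum : A = (A - B) + (B - J * b) + J * (b - a) + J * a := by ring
  have hA : ‖A‖ ≤ J * (2 * (2 * θ * Real.log T / T)) + J * T ^ (-θ') + J * (2 * (2 * θ * Real.log T / T)) +
      J * (T ^ (-θ') * (1 + 1 / |lam|)) := by
    rw [hsum]
    refine (norm_add_le _ _).trans (add_le_add ((norm_add_le _ _).trans (add_le_add ((norm_add_le _ _).trans
      (add_le_add c1 g1')) ?_)) ?_)
    · rw [norm_mul, hJn, norm_sub_rev]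
      exact mul_le_mul_of_nonneg_left c2 hJ0.le
    · rw [norm_mul, hJn]
      exact mul_le_mul_of_nonneg_left g2' hJ0.le
  have hlim := (hT₂ T hTb).le
  have hq : 2 * T ^ (-θ') + 8 * θ * (Real.log T / T) ≤ T ^ (-θ₂) := by
    have e1 : T ^ (-θ') = T ^ (-(θ' - θ₂)) * T ^ (-θ₂) := by
      rw [← Real.rpow_add hT0]; congr 1; ring
    have e2 : Real.log T / T = Real.log T / T ^ (1 - θ₂) * T ^ (-θ₂) := by
      rw [Real.rpow_sub hT0, Real.rpow_one, Real.rpow_neg hT0.le]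
      field_simp
    rw [e1, e2]
    have hp : 0 ≤ T ^ (-θ₂) := by positivity
    calc _ = (2 * T ^ (-(θ' - θ₂)) + 8 * θ * (Real.log T / T ^ (1 - θ₂))) * T ^ (-θ₂) := by ring
      _ ≤ 1 * T ^ (-θ₂) := mul_le_mul_of_nonneg_right hlim hp
      _ = _ := one_mul _
  refine hA.trans ?_
  have hlog : 0 ≤ Real.log T := Real.log_nonneg hT1
  have hp' : 0 ≤ T ^ (-θ') := by positivity
  have hz : 0 ≤ 8 * θ * (Real.log T / T) := by positivity
  have hle : T ^ (-θ') * (1 / |lam|) ≤ T ^ (-θ₂) * (1 / |lam|) := by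
    refine mul_le_mul_of_nonneg_right ?_ hab
    linarith
  calc _ = J * ((2 * T ^ (-θ') + 8 * θ * (Real.log T / T)) + T ^ (-θ') * (1 / |lam|)) := by ring
    _ ≤ J * (T ^ (-θ₂) * (1 + 1 / |lam|)) := by
        refine mul_le_mul_of_nonneg_left ?_ hJ0.le
        rw [mul_add, mul_one]
        linarith

end

end Pool.Agent.U52.RH
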