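import Pool.Agent.U52.RH.Walk

set_option autoImplicit false

/-! Random walks with positive drift: windows of the walk have small character sums. -/

namespace Pool.Agent.U52.RH

open Complex MeasureTheory Filter Topology Set ProbabilityTheory
open scoped ENNReal NNReal
open Pool.Agent.R461.HM

noncomputable section

variable {Ω : Type*} [MeasurableSpace Ω] {P : Measure Ω} [IsProbabilityMeasure P] {μ : Measure ℝ} [IsProbabilityMeasure μ]

/-- the law of large numbers for the walk -/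
lemma walk_lln {X : ℕ → Ω → ℝ} (hX : ∀ j, Measurable (X j)) (hind : iIndepFun X P) (hlaw : ∀ j, P.map (X j) = μ)
    (hint : Integrable (fun x : ℝ => x) μ) :
    ∀ᵐ ω ∂P, Tendsto (fun n : ℕ => ps (fun i => X i ω) n / n) atTop (𝓝 (∫ x, x ∂μ)) := by
  have h0 : Integrable (X 0) P := by
    have : Integrable (fun x : ℝ => x) (P.map (X 0)) := by rw [hlaw]; exact hint
    exact this.comp_measurable (hX 0)
  have h1 := strong_law_ae_real (μ := P) X h0 (fun i j hij => hind.indepFun hij)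
    (fun i => ⟨(hX i).aemeasurable, (hX 0).aemeasurable, by rw [hlaw, hlaw]⟩)
  have h2 : ∫ ω, X 0 ω ∂P = ∫ x, x ∂μ := by
    rw [← hlaw 0, integral_map (hX 0).aemeasurable (by fun_prop)]
  rw [h2] at h1
  exact h1

/-- the heights `S_n` in windows -/
theorem ae_heightsW {X : ℕ → Ω → ℝ} (hX : ∀ j, Measurable (X j)) (hind : iIndepFun X P) (hlaw : ∀ j, P.map (X j) = μ)
    (hint : Integrable (fun x : ℝ => x) μ) (hpos : 0 < ∫ x, x ∂μ) {c : ℝ} (hc : 0 < c)
    (hcf : ∀ v : ℝ, c * min 1 |v| ≤ ‖1 - cf μ v‖)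
    {κ θ θ₂ : ℝ} (hκ : 0 < κ) (hθ : 0 ≤ θ) (h2 : 0 ≤ θ₂) (h2κ : 2 * θ₂ < κ) :
    ∀ᵐ ω ∂P, ∃ T₀ : ℝ, Real.exp 1 ≤ T₀ ∧ ∀ T : ℝ, T₀ ≤ T → ∀ u J : ℕ, T ^ κ ≤ J →
      (∀ j < J, ps (fun i => X i ω) (u + j) ∈ Icc T (2 * T)) →
      Heights T (T ^ (2 * θ)) (T ^ (-θ₂)) (unif J (fun j => ps (fun i => X i ω) (u + j))) := by
  set γ : ℝ := (θ₂ / κ + 1 / 2) / 2 with hγ
  have hr : θ₂ / κ < 1 / 2 := by rw [div_lt_iff₀ hκ]; linarith
  have hγ1 : γ < 1 / 2 := by rw [hγ]; linarith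
  have hγ0 : θ₂ / κ < γ := by rw [hγ]; linarith
  have hγ2 : 0 < γ := lt_of_le_of_lt (by positivity) hγ0
  have hκγ : θ₂ < κ * γ := by
    rw [div_lt_iff₀ hκ] at hγ0
    linarith
  set A : ℝ := (2 + 2 * θ) / κ with hA
  have hA0 : 0 ≤ A := by positivity
  set m := ∫ x, x ∂μ with hm
  filter_upwards [ae_goodW hX hind hlaw hA0 hγ1, walk_lln hX hind hlaw hint] with ω ⟨J₀, hJ₀, hgood⟩ hlln
  set S : ℕ → ℝ := ps (fun i => X i ω) with hS
  obtain ⟨n₀, hn₀⟩ := eventually_atTop.mp (hlln.eventually (lt_mem_nhds (show m / 2 < m by linarith)))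
  -- elementary limits
  have t1 : Tendsto (fun T : ℝ => T ^ κ) atTop atTop := tendsto_rpow_atTop hκ
  have t2 : Tendsto (fun T : ℝ => 3 / c * T ^ (-(κ * γ - θ₂))) atTop (𝓝 (3 / c * 0)) :=
    (tendsto_rpow_neg_atTop (by linarith)).const_mul _
  rw [mul_zero] at t2
  obtain ⟨T₁, hT₁⟩ := eventually_atTop.mp ((t1.eventually_ge_atTop (J₀ : ℝ)).and
    ((t2.eventually (gt_mem_nhds (show (0:ℝ) < 1 by norm_num))).and
      ((eventually_ge_atTop (4 / m + 1)).and (eventually_ge_atTop ((n₀ : ℝ) + 1)))))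
  refine ⟨max (Real.exp 1) T₁, le_max_left _ _, fun T hT u J hJ hw => ?_⟩
  have hTe : Real.exp 1 ≤ T := (le_max_left _ _).trans hT
  obtain ⟨q1, q2, q3, q4⟩ := hT₁ T ((le_max_right _ _).trans hT)
  have hT1 : 1 ≤ T := by have := Real.add_one_le_exp 1; linarith
  have hT0 : 0 < T := by linarith
  have hJ1' : (1:ℝ) ≤ J := (Real.one_le_rpow hT1 hκ.le).trans hJ
  have hJ1 : 1 ≤ J := by exact_mod_cast hJ1'
  have hJ0 : (0:ℝ) < J := by linarith
  have hJJ : J₀ ≤ J := by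
    have : (J₀ : ℝ) ≤ J := q1.trans hJ
    exact_mod_cast this
  have hTJ : T ≤ (J:ℝ) ^ (1 / κ) := by
    have h1 := Real.rpow_le_rpow (by positivity) hJ (show 0 ≤ 1 / κ by positivity)
    rw [← Real.rpow_mul hT0.le] at h1
    have e : κ * (1 / κ) = 1 := by field_simp
    rwa [e, Real.rpow_one] at h1
  -- the index is at most `T ^ 2`
  have huT : (u : ℝ) ≤ T ^ 2 := by
    by_cases hu : u < n₀
    · have h1 : (u:ℝ) ≤ n₀ := by exact_mod_cast hu.le
      nlinarith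
    · have h1 := hn₀ u (by omega)
      have h3 := (hw 0 (by omega)).2
      rw [add_zero] at h3
      rcases Nat.eq_zero_or_pos u with h0 | h0
      · rw [h0, Nat.cast_zero]; positivity
      have hu0 : (0:ℝ) < u := by exact_mod_cast h0
      have h4 : m / 2 * u < S u := by rwa [lt_div_iff₀ hu0] at h1
      have h5 : m * u ≤ 4 * T := by linarith
      have h6 : (u:ℝ) ≤ 4 / m * T := by
        rw [div_mul_eq_mul_div, le_div_iff₀ hpos]
        linarith
      nlinarith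
  have huA : (u : ℝ) ≤ (J:ℝ) ^ A := by
    refine huT.trans ?_
    calc T ^ 2 ≤ ((J:ℝ) ^ (1 / κ)) ^ 2 := pow_le_pow_left₀ hT0.le hTJ 2
      _ = (J:ℝ) ^ (2 / κ) := by
          rw [← Real.rpow_natCast, ← Real.rpow_mul hJ0.le]
          congr 1; push_cast; ring
      _ ≤ _ := by
          refine Real.rpow_le_rpow_of_exponent_le hJ1' ?_
          rw [hA]
          gcongr
          linarith
  have hTA : T ^ (2 * θ) ≤ (J:ℝ) ^ A := by
    calc T ^ (2 * θ) ≤ ((J:ℝ) ^ (1 / κ)) ^ (2 * θ) := Real.rpow_le_rpow hT0.le hTJ (by positivity)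
      _ = (J:ℝ) ^ (2 * θ / κ) := by
          rw [← Real.rpow_mul hJ0.le]
          congr 1; ring
      _ ≤ _ := by
          refine Real.rpow_le_rpow_of_exponent_le hJ1' ?_
          rw [hA]
          gcongr
          linarith
  refine unif_heights hJ1 (fun j hj => hw j hj) (fun k l hk hl hkl hY => ?_)
  have hk1 : (1:ℝ) ≤ k := by exact_mod_cast hk
  have hl1 : (1:ℝ) ≤ l := by exact_mod_cast hl
  have hkA : (k:ℝ) ≤ (J:ℝ) ^ A := by nlinarith
  have hlA : (l:ℝ) ≤ (J:ℝ) ^ A := by nlinarith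
  have g1 := hgood J hJJ u k l huA hkA hlA
  set lam := Real.log ((k : ℝ) / l) with hlam
  have hl0 : lam ≠ 0 := by
    rw [hlam]
    refine Real.log_ne_zero_of_pos_of_ne_one (by positivity) ?_
    intro h1
    rw [div_eq_one_iff_eq (by positivity)] at h1
    exact hkl (by exact_mod_cast h1)
  have g2 := window_le hc hl0 (hcf lam) (fun i => X i ω) u J g1
  have e0 : ∑ j ∈ Finset.range J, exp (I * (((S (u + j) : ℝ) : ℂ) * (lam : ℂ))) =
      ∑ j ∈ Finset.range J, exp (I * (lam * S (u + j))) := by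
    refine Finset.sum_congr rfl fun j _ => ?_
    congr 1
    ring
  rw [e0]
  refine g2.trans ?_
  have h5 : ((J:ℝ) ^ (1 - γ) + 2) / c ≤ J * T ^ (-θ₂) := by
    have h6 : (1:ℝ) ≤ (J:ℝ) ^ (1 - γ) := Real.one_le_rpow hJ1' (by linarith)
    have h7 : (J:ℝ) ^ (1 - γ) ≤ J * T ^ (-(κ * γ)) := by
      rw [sub_eq_add_neg, Real.rpow_add hJ0, Real.rpow_one]
      refine mul_le_mul_of_nonneg_left ?_ hJ0.le
      calc (J:ℝ) ^ (-γ) ≤ (T ^ κ) ^ (-γ) := Real.rpow_le_rpow_of_nonpos (by positivity) hJ (by linarith)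
        _ = _ := by rw [← Real.rpow_mul hT0.le]; congr 1; ring
    calc ((J:ℝ) ^ (1 - γ) + 2) / c ≤ (3 * (J:ℝ) ^ (1 - γ)) / c := by gcongr; linarith
      _ ≤ (3 * (J * T ^ (-(κ * γ)))) / c := by gcongr
      _ = J * T ^ (-θ₂) * (3 / c * T ^ (-(κ * γ - θ₂))) := by
          have e1 : T ^ (-(κ * γ)) = T ^ (-θ₂) * T ^ (-(κ * γ - θ₂)) := by
            rw [← Real.rpow_add hT0]; congr 1; ring
          rw [e1]; ring
      _ ≤ J * T ^ (-θ₂) * 1 := mul_le_mul_of_nonneg_left q2.le (by positivity)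
      _ = _ := mul_one _
  calc ((J:ℝ) ^ (1 - γ) + 2) / c * (1 + 1 / |lam|) ≤ (J * T ^ (-θ₂)) * (1 + 1 / |lam|) := by gcongr
    _ = _ := by ring

/-- long windows exist -/
theorem ae_windows {X : ℕ → Ω → ℝ} (hX : ∀ j, Measurable (X j)) (hind : iIndepFun X P) (hlaw : ∀ j, P.map (X j) = μ)
    (hint : Integrable (fun x : ℝ => x) μ) (hpos : 0 < ∫ x, x ∂μ) :
    ∀ᵐ ω ∂P, ∃ T₀ : ℝ, ∀ T : ℝ, T₀ ≤ T → ∃ u J : ℕ, T / (2 * ∫ x, x ∂μ) ≤ J ∧
      ∀ j < J, ps (fun i => X i ω) (u + j) ∈ Icc T (2 * T) := by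
  set m := ∫ x, x ∂μ with hm
  filter_upwards [walk_lln hX hind hlaw hint] with ω hlln
  obtain ⟨n₀, hn₀⟩ := eventually_atTop.mp ((hlln.eventually (lt_mem_nhds (show m * (9 / 10) < m by linarith))).and
    (hlln.eventually (gt_mem_nhds (show m < m * (11 / 10) by linarith))))
  refine ⟨max (m * (n₀ + 1)) (20 * m), fun T hT => ?_⟩
  have h1 : m * (n₀ + 1) ≤ T := (le_max_left _ _).trans hT
  have h2 : 20 * m ≤ T := (le_max_right _ _).trans hT
  have hn0' : (0:ℝ) ≤ n₀ := by positivity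
  have hT0 : 0 < T := by nlinarith
  set y : ℝ := T / m with hy
  have hy0 : 0 < y := by positivity
  have hym : y * m = T := by rw [hy]; field_simp
  have hy20 : 20 ≤ y := by rw [hy, le_div_iff₀ hpos]; exact h2
  have hyn : (n₀:ℝ) + 1 ≤ y := by rw [hy, le_div_iff₀ hpos]; linarith
  set u := ⌈6 / 5 * y⌉₊ with hu
  have hu1 : 6 / 5 * y ≤ u := Nat.le_ceil _
  have hu2 : (u:ℝ) < 6 / 5 * y + 1 := Nat.ceil_lt_add_one (by positivity)
  set J := ⌊11 / 20 * y⌋₊ with hJ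
  have hJ1 : (J:ℝ) ≤ 11 / 20 * y := Nat.floor_le (by positivity)
  have hJ2 : 11 / 20 * y < (J:ℝ) + 1 := Nat.lt_floor_add_one _
  refine ⟨u, J, ?_, fun j hj => ?_⟩
  · have e : T / (2 * m) = y / 2 := by rw [hy]; field_simp
    rw [e]
    linarith
  · have hj' : (j:ℝ) < J := by exact_mod_cast hj
    have hj0 : (0:ℝ) ≤ j := by positivity
    have hn : (0:ℝ) < ((u + j : ℕ) : ℝ) := by
      push_cast
      linarith
    have hge : n₀ ≤ u + j := by
      have : (n₀:ℝ) ≤ ((u + j : ℕ) : ℝ) := by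
        push_cast
        linarith
      exact_mod_cast this
    obtain ⟨a1, a2⟩ := hn₀ (u + j) hge
    rw [lt_div_iff₀ hn] at a1
    rw [div_lt_iff₀ hn] at a2
    push_cast at a1 a2
    constructor
    · have : T ≤ m * (9 / 10) * (u + j) := by
        have h5 : 6 / 5 * y ≤ (u:ℝ) + j := by linarith
        have h6 : m * (9 / 10) * (6 / 5 * y) ≤ m * (9 / 10) * (u + j) := by gcongr
        nlinarith
      linarith
    · have : m * (11 / 10) * (u + j) ≤ 2 * T := by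
        have h5 : (u:ℝ) + j ≤ 9 / 5 * y := by linarith
        have h6 : m * (11 / 10) * (u + j) ≤ m * (11 / 10) * (9 / 5 * y) := by gcongr
        nlinarith
      linarith

end

end Pool.Agent.U52.RH
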