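import Pool.Agent.U52.RH.Hoeff

set_option autoImplicit false

/-! Independent samples: almost surely all dilated trigonometric sums at frequencies `√n log (m/l)` are close to their means. -/

namespace Pool.Agent.U52.RH

open Complex MeasureTheory Filter Topology Set ProbabilityTheory
open scoped ENNReal NNReal

noncomputable section

lemma exp_neg_le_rpow {c β A : ℝ} (hc : 0 < c) (hβ : 0 < β) :
    ∃ C : ℝ, 0 < C ∧ ∀ x : ℝ, 1 ≤ x → Real.exp (-(c * x ^ β)) ≤ C * x ^ (-A) := by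
  obtain ⟨N, hN⟩ := exists_nat_ge (A / β)
  rw [div_le_iff₀ hβ] at hN
  refine ⟨N.factorial / c ^ N, by positivity, fun x hx => ?_⟩
  have hx0 : 0 < x := by linarith
  have h1 := Real.pow_div_factorial_le_exp (c * x ^ β) (by positivity) N
  have h2 : Real.exp (-(c * x ^ β)) ≤ N.factorial / (c * x ^ β) ^ N := by
    rw [Real.exp_neg, inv_le_comm₀ (Real.exp_pos _) (by positivity), inv_div]
    exact h1
  refine h2.trans ?_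
  have h3 : (c * x ^ β) ^ N = c ^ N * x ^ (β * N) := by
    rw [mul_pow, ← Real.rpow_mul_natCast hx0.le]
  rw [h3, ← div_div, div_eq_mul_inv (_ / _), ← Real.rpow_neg hx0.le]
  refine mul_le_mul_of_nonneg_left ?_ (by positivity)
  exact Real.rpow_le_rpow_of_exponent_le hx (by linarith)

/-- the bad events -/
def bad {Ω : Type*} (X : ℕ → Ω → ℝ) (μ : Measure ℝ) (κ θ θ' : ℝ) (i : ℕ × ℕ × ℕ × ℕ) : Set Ω :=
  {ω | (1 ≤ i.1 ∧ 1 ≤ i.2.1 ∧ (i.1 : ℝ) ^ (κ / 2) ≤ i.2.1 ∧ 1 ≤ i.2.2.1 ∧ 1 ≤ i.2.2.2 ∧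
      (i.2.2.1 : ℝ) * i.2.2.2 ≤ ((i.1 : ℝ) + 1) ^ θ) ∧
    i.2.1 * ((i.1 : ℝ) + 1) ^ (-(θ' / 2)) ≤
      ‖∑ j ∈ Finset.range i.2.1, exp (I * ((√(i.1 : ℝ) * Real.log ((i.2.2.1 : ℝ) / i.2.2.2) : ℝ) * X j ω)) -
        i.2.1 * ∫ x : ℝ, exp (I * ((√(i.1 : ℝ) * Real.log ((i.2.2.1 : ℝ) / i.2.2.2) : ℝ) * x)) ∂μ‖}

variable {Ω : Type*} [MeasurableSpace Ω] {P : Measure Ω} [IsProbabilityMeasure P] {μ : Measure ℝ} [IsProbabilityMeasure μ]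

lemma bad_prob {X : ℕ → Ω → ℝ} (hX : ∀ j, Measurable (X j)) (hind : iIndepFun X P) (hlaw : ∀ j, P.map (X j) = μ)
    {κ θ θ' : ℝ} (hκ : 0 < κ) (hθ : 0 ≤ θ) (hθ' : 0 ≤ θ') (hκθ : θ' < κ / 2) :
    ∃ C : ℝ, 0 < C ∧ ∀ i : ℕ × ℕ × ℕ × ℕ, P.real (bad X μ κ θ θ' i) ≤
      C * (1 / ((i.1 : ℝ) + 1) ^ 2 * (1 / ((i.2.1 : ℝ) + 1) ^ 2 * (1 / ((i.2.2.1 : ℝ) + 1) ^ 2 *
        (1 / ((i.2.2.2 : ℝ) + 1) ^ 2)))) := by
  set β : ℝ := 1 - 2 * θ' / κ with hβ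
  have hβ0 : 0 < β := by
    rw [hβ, sub_pos, div_lt_one hκ]; linarith
  obtain ⟨C, hC, hexp⟩ := exp_neg_le_rpow (c := 2 ^ (-θ') / 8) (β := β) (A := 2 + 4 * (1 + θ) / κ) (by positivity) hβ0
  refine ⟨4 * C * (256 * 2 ^ (2 * θ)), by positivity, ?_⟩
  rintro ⟨n, J, m, l⟩
  simp only
  by_cases hc : 1 ≤ n ∧ 1 ≤ J ∧ (n : ℝ) ^ (κ / 2) ≤ J ∧ 1 ≤ m ∧ 1 ≤ l ∧ (m : ℝ) * l ≤ ((n : ℝ) + 1) ^ θ
  · obtain ⟨hn, hJ, hnJ, hm, hl, hml⟩ := hc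
    have hn1 : (1:ℝ) ≤ n := by exact_mod_cast hn
    have hJ1 : (1:ℝ) ≤ J := by exact_mod_cast hJ
    have hm1 : (1:ℝ) ≤ m := by exact_mod_cast hm
    have hl1 : (1:ℝ) ≤ l := by exact_mod_cast hl
    have hJ0 : (0:ℝ) < J := by linarith
    have hnJ' : (n:ℝ) ≤ (J:ℝ) ^ (2 / κ) := by
      have h1 := Real.rpow_le_rpow (by positivity) hnJ (show 0 ≤ 2 / κ by positivity)
      rw [← Real.rpow_mul (by positivity)] at h1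
      have e : κ / 2 * (2 / κ) = 1 := by field_simp
      rwa [e, Real.rpow_one] at h1
    have hn2 : (n:ℝ) + 1 ≤ 2 * (J:ℝ) ^ (2 / κ) := by linarith
    have h1 : P.real (bad X μ κ θ θ' (n, J, m, l)) ≤ 4 * Real.exp (-(J * (((n : ℝ) + 1) ^ (-(θ' / 2))) ^ 2 / 8)) := by
      refine le_trans (measureReal_mono ?_) (hoeff_exp hX hind hlaw (√(n : ℝ) * Real.log ((m : ℝ) / l)) J
        (ε := ((n : ℝ) + 1) ^ (-(θ' / 2))) (by positivity))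
      intro ω hω
      exact hω.2
    have h2 : 2 ^ (-θ') / 8 * (J:ℝ) ^ β ≤ J * (((n : ℝ) + 1) ^ (-(θ' / 2))) ^ 2 / 8 := by
      have e1 : (((n : ℝ) + 1) ^ (-(θ' / 2))) ^ 2 = ((n : ℝ) + 1) ^ (-θ') := by
        rw [← Real.rpow_natCast, ← Real.rpow_mul (by positivity)]
        congr 1; push_cast; ring
      have e2 : (2 * (J:ℝ) ^ (2 / κ)) ^ (-θ') ≤ ((n : ℝ) + 1) ^ (-θ') :=
        Real.rpow_le_rpow_of_nonpos (by positivity) hn2 (by linarith)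
      have e3 : (2 * (J:ℝ) ^ (2 / κ)) ^ (-θ') = 2 ^ (-θ') * (J:ℝ) ^ (-(2 * θ' / κ)) := by
        rw [Real.mul_rpow (by norm_num) (by positivity), ← Real.rpow_mul hJ0.le]
        congr 2; ring
      have e4 : (J:ℝ) ^ β = J * (J:ℝ) ^ (-(2 * θ' / κ)) := by
        rw [hβ, sub_eq_add_neg, Real.rpow_add hJ0, Real.rpow_one]
      rw [e1, e4]
      rw [e3] at e2
      have := mul_le_mul_of_nonneg_left e2 hJ0.le
      nlinarith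
    have h3 : Real.exp (-(J * (((n : ℝ) + 1) ^ (-(θ' / 2))) ^ 2 / 8)) ≤ C * (J:ℝ) ^ (-(2 + 4 * (1 + θ) / κ)) :=
      (Real.exp_le_exp.2 (neg_le_neg h2)).trans (hexp J hJ1)
    have h4 : ((n:ℝ) + 1) ^ 2 * (((J:ℝ) + 1) ^ 2 * (((m:ℝ) + 1) ^ 2 * ((l:ℝ) + 1) ^ 2)) ≤
        256 * 2 ^ (2 * θ) * (J:ℝ) ^ (2 + 4 * (1 + θ) / κ) := by
      have f1 : ((n:ℝ) + 1) ^ 2 ≤ (2 * (J:ℝ) ^ (2 / κ)) ^ 2 := pow_le_pow_left₀ (by positivity) hn2 2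
      have f2 : ((J:ℝ) + 1) ^ 2 ≤ (2 * J) ^ 2 := pow_le_pow_left₀ (by positivity) (by linarith) 2
      have f3 : ((m:ℝ) + 1) ^ 2 * ((l:ℝ) + 1) ^ 2 ≤ 16 * (((n : ℝ) + 1) ^ θ) ^ 2 := by
        have g1 : ((m:ℝ) + 1) * (l + 1) ≤ 4 * (m * l) := by nlinarith
        have g2 : ((m:ℝ) + 1) * (l + 1) ≤ 4 * ((n : ℝ) + 1) ^ θ := by linarith
        calc ((m:ℝ) + 1) ^ 2 * ((l:ℝ) + 1) ^ 2 = (((m:ℝ) + 1) * (l + 1)) ^ 2 := by ring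
          _ ≤ (4 * ((n : ℝ) + 1) ^ θ) ^ 2 := pow_le_pow_left₀ (by positivity) g2 2
          _ = _ := by ring
      have f4 : (((n : ℝ) + 1) ^ θ) ^ 2 ≤ ((2 * (J:ℝ) ^ (2 / κ)) ^ θ) ^ 2 :=
        pow_le_pow_left₀ (by positivity) (Real.rpow_le_rpow (by positivity) hn2 hθ) 2
      have f5 : ((2 * (J:ℝ) ^ (2 / κ)) ^ θ) ^ 2 = 2 ^ (2 * θ) * (J:ℝ) ^ (4 * θ / κ) := by
        rw [← Real.rpow_natCast, ← Real.rpow_mul (by positivity), Real.mul_rpow (by norm_num) (by positivity),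
          ← Real.rpow_mul hJ0.le]
        congr 1
        · congr 1; push_cast; ring
        · congr 1; push_cast; ring
      have f6 : ((J:ℝ) ^ (2 / κ)) ^ 2 = (J:ℝ) ^ (4 / κ) := by
        rw [← Real.rpow_natCast, ← Real.rpow_mul hJ0.le]
        congr 1; push_cast; ring
      have f7 : (J:ℝ) ^ (2 + 4 * (1 + θ) / κ) = (J:ℝ) ^ 2 * ((J:ℝ) ^ (4 / κ) * (J:ℝ) ^ (4 * θ / κ)) := by
        rw [← Real.rpow_add hJ0, ← Real.rpow_natCast, ← Real.rpow_add hJ0]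
        congr 1; push_cast; ring
      calc ((n:ℝ) + 1) ^ 2 * (((J:ℝ) + 1) ^ 2 * (((m:ℝ) + 1) ^ 2 * ((l:ℝ) + 1) ^ 2))
          ≤ (2 * (J:ℝ) ^ (2 / κ)) ^ 2 * ((2 * J) ^ 2 * (16 * ((2 * (J:ℝ) ^ (2 / κ)) ^ θ) ^ 2)) := by
            refine mul_le_mul f1 (mul_le_mul f2 (f3.trans (by linarith)) (by positivity) (by positivity))
              (by positivity) (by positivity)
        _ = 256 * 2 ^ (2 * θ) * ((J:ℝ) ^ 2 * (((J:ℝ) ^ (2 / κ)) ^ 2 * (J:ℝ) ^ (4 * θ / κ))) := by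
            rw [f5]; ring
        _ = _ := by rw [f6, f7]
    have hD : 0 < ((n:ℝ) + 1) ^ 2 * (((J:ℝ) + 1) ^ 2 * (((m:ℝ) + 1) ^ 2 * ((l:ℝ) + 1) ^ 2)) := by positivity
    have e5 : 4 * C * (256 * 2 ^ (2 * θ)) * (1 / ((n : ℝ) + 1) ^ 2 * (1 / ((J : ℝ) + 1) ^ 2 * (1 / ((m : ℝ) + 1) ^ 2 *
        (1 / ((l : ℝ) + 1) ^ 2)))) = 4 * C * (256 * 2 ^ (2 * θ)) /
          (((n:ℝ) + 1) ^ 2 * (((J:ℝ) + 1) ^ 2 * (((m:ℝ) + 1) ^ 2 * ((l:ℝ) + 1) ^ 2))) := by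
      field_simp
    rw [e5, le_div_iff₀ hD]
    have hJA : 0 < (J:ℝ) ^ (2 + 4 * (1 + θ) / κ) := by positivity
    have h5 : P.real (bad X μ κ θ θ' (n, J, m, l)) ≤ 4 * C * ((J:ℝ) ^ (2 + 4 * (1 + θ) / κ))⁻¹ := by
      rw [Real.rpow_neg hJ0.le] at h3
      linarith
    calc _ ≤ 4 * C * ((J:ℝ) ^ (2 + 4 * (1 + θ) / κ))⁻¹ * (256 * 2 ^ (2 * θ) * (J:ℝ) ^ (2 + 4 * (1 + θ) / κ)) :=
          mul_le_mul h5 h4 hD.le (by positivity)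
      _ = _ := by field_simp
  · have hempty : bad X μ κ θ θ' (n, J, m, l) = ∅ := by
      ext ω
      simp only [mem_empty_iff_false, iff_false]
      intro hω
      exact hc hω.1
    rw [hempty, measureReal_empty]
    positivity

lemma summable_aux : Summable fun x : ℕ => 1 / ((x : ℝ) + 1) ^ 2 := by
  have h := (summable_nat_add_iff 1).2 (Real.summable_one_div_nat_pow.2 (one_lt_two : 1 < 2))
  refine h.congr fun x => ?_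
  push_cast
  rfl

lemma ae_good {X : ℕ → Ω → ℝ} (hX : ∀ j, Measurable (X j)) (hind : iIndepFun X P) (hlaw : ∀ j, P.map (X j) = μ)
    {κ θ θ' : ℝ} (hκ : 0 < κ) (hθ : 0 ≤ θ) (hθ' : 0 ≤ θ') (hκθ : θ' < κ / 2) :
    ∀ᵐ ω ∂P, ∃ n₀ : ℕ, 1 ≤ n₀ ∧ ∀ n : ℕ, n₀ ≤ n → ∀ J : ℕ, 1 ≤ J → (n : ℝ) ^ (κ / 2) ≤ J → ∀ m l : ℕ, 1 ≤ m → 1 ≤ l →
      (m : ℝ) * l ≤ ((n : ℝ) + 1) ^ θ →
      ‖∑ j ∈ Finset.range J, exp (I * ((√(n : ℝ) * Real.log ((m : ℝ) / l) : ℝ) * X j ω)) -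
        J * ∫ x : ℝ, exp (I * ((√(n : ℝ) * Real.log ((m : ℝ) / l) : ℝ) * x)) ∂μ‖ ≤ J * ((n : ℝ) + 1) ^ (-(θ' / 2)) := by
  obtain ⟨C, hC, hb⟩ := bad_prob hX hind hlaw hκ hθ hθ' hκθ
  have hnn : ∀ x : ℕ, 0 ≤ 1 / ((x : ℝ) + 1) ^ 2 := fun x => by positivity
  have hs : Summable fun i : ℕ × ℕ × ℕ × ℕ => C * (1 / ((i.1 : ℝ) + 1) ^ 2 * (1 / ((i.2.1 : ℝ) + 1) ^ 2 *
      (1 / ((i.2.2.1 : ℝ) + 1) ^ 2 * (1 / ((i.2.2.2 : ℝ) + 1) ^ 2)))) := by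
    have h1 := summable_aux.mul_of_nonneg summable_aux hnn hnn
    have h2 := summable_aux.mul_of_nonneg h1 hnn (fun x => by dsimp only; positivity)
    have h3 := summable_aux.mul_of_nonneg h2 hnn (fun x => by dsimp only; positivity)
    exact h3.mul_left C
  have hfin : ∑' i, P (bad X μ κ θ θ' i) ≠ ∞ := by
    have h1 : ∀ i, P (bad X μ κ θ θ' i) ≤ ENNReal.ofReal (C * (1 / ((i.1 : ℝ) + 1) ^ 2 * (1 / ((i.2.1 : ℝ) + 1) ^ 2 *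
        (1 / ((i.2.2.1 : ℝ) + 1) ^ 2 * (1 / ((i.2.2.2 : ℝ) + 1) ^ 2))))) := by
      intro i
      rw [← ofReal_measureReal]
      exact ENNReal.ofReal_le_ofReal (hb i)
    refine ne_top_of_le_ne_top ?_ (ENNReal.tsum_le_tsum h1)
    exact hs.tsum_ofReal_ne_top
  filter_upwards [ae_finite_setOfPred_mem hfin] with ω hω
  obtain ⟨N, hN⟩ := (hω.image (fun i : ℕ × ℕ × ℕ × ℕ => i.1)).bddAbove
  refine ⟨N + 1, by omega, fun n hn J hJ hnJ m l hm hl hml => ?_⟩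
  by_contra hcon
  rw [not_le] at hcon
  have h1 : ω ∈ bad X μ κ θ θ' (n, J, m, l) := ⟨⟨by simp only; omega, hJ, hnJ, hm, hl, hml⟩, hcon.le⟩
  have h2 : n ≤ N := hN ⟨(n, J, m, l), h1, rfl⟩
  omega

end

end Pool.Agent.U52.RH
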