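import Mathlib

set_option autoImplicit false

/-! Independent samples: Hoeffding's inequality for trigonometric sums and a Borel-Cantelli argument. -/

namespace Pool.Agent.U52.RH

open Complex MeasureTheory Filter Topology Set ProbabilityTheory
open scoped ENNReal NNReal

noncomputable section

variable {Ω : Type*} [MeasurableSpace Ω] {P : Measure Ω} [IsProbabilityMeasure P] {μ : Measure ℝ}

/-- Hoeffding's inequality for a bounded function of i.i.d. samples -/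
lemma hoeff {X : ℕ → Ω → ℝ} (hX : ∀ j, Measurable (X j)) (hind : iIndepFun X P) (hlaw : ∀ j, P.map (X j) = μ)
    {f : ℝ → ℝ} (hf : Measurable f) (hb : ∀ x, |f x| ≤ 1) (J : ℕ) {ε : ℝ} (hε : 0 ≤ ε) :
    P.real {ω | J * ε ≤ ∑ j ∈ Finset.range J, f (X j ω) - J * ∫ x, f x ∂μ} ≤ Real.exp (-(J * ε ^ 2 / 2)) := by
  rcases Nat.eq_zero_or_pos J with hJ | hJ
  · subst hJ
    simp only [Nat.cast_zero, zero_mul, zero_div, neg_zero, Real.exp_zero]
    exact measureReal_le_one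
  have hJr : (0:ℝ) < J := by exact_mod_cast hJ
  have h1 : iIndepFun (fun j ω => f (X j ω) - ∫ x, f x ∂μ) P :=
    hind.comp (fun _ x => f x - ∫ x, f x ∂μ) (fun _ => hf.sub_const _)
  have h2 : ∀ j < J, HasSubgaussianMGF (fun ω => f (X j ω) - ∫ x, f x ∂μ) 1 P := by
    intro j _
    have h3 := hasSubgaussianMGF_of_mem_Icc (X := fun ω => f (X j ω)) (μ := P) (a := -1) (b := 1)
      (hf.comp (hX j)).aemeasurable (Eventually.of_forall fun ω => abs_le.1 (hb _))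
    have e1 : ∫ ω, f (X j ω) ∂P = ∫ x, f x ∂μ := by
      rw [← hlaw j, integral_map (hX j).aemeasurable hf.aestronglyMeasurable]
    rw [e1] at h3
    have e2 : ((‖(1:ℝ) - -1‖₊ / 2) ^ 2 : ℝ≥0) = 1 := by
      have : ‖(1:ℝ) - -1‖₊ = 2 := by
        ext
        simp
        norm_num
      rw [this]
      norm_num
    rwa [e2] at h3
  have h4 := HasSubgaussianMGF.measure_sum_range_ge_le_of_iIndepFun h1 h2 (ε := J * ε) (by positivity)
  have e3 : {ω | J * ε ≤ ∑ j ∈ Finset.range J, (f (X j ω) - ∫ x, f x ∂μ)} =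
      {ω | J * ε ≤ ∑ j ∈ Finset.range J, f (X j ω) - J * ∫ x, f x ∂μ} := by
    ext ω
    simp [Finset.sum_sub_distrib]
  rw [e3] at h4
  refine h4.trans (le_of_eq ?_)
  congr 1
  push_cast
  field_simp

/-- the two sided version -/
lemma hoeff_abs {X : ℕ → Ω → ℝ} (hX : ∀ j, Measurable (X j)) (hind : iIndepFun X P) (hlaw : ∀ j, P.map (X j) = μ)
    {f : ℝ → ℝ} (hf : Measurable f) (hb : ∀ x, |f x| ≤ 1) (J : ℕ) {ε : ℝ} (hε : 0 ≤ ε) :
    P.real {ω | J * ε ≤ |∑ j ∈ Finset.range J, f (X j ω) - J * ∫ x, f x ∂μ|} ≤ 2 * Real.exp (-(J * ε ^ 2 / 2)) := by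
  have h1 := hoeff hX hind hlaw hf hb J hε
  have h2 := hoeff hX hind hlaw hf.neg (f := fun x => -f x) (fun x => by rw [abs_neg]; exact hb x) J hε
  have h3 : {ω | J * ε ≤ |∑ j ∈ Finset.range J, f (X j ω) - J * ∫ x, f x ∂μ|} ⊆
      {ω | J * ε ≤ ∑ j ∈ Finset.range J, f (X j ω) - J * ∫ x, f x ∂μ} ∪
      {ω | J * ε ≤ ∑ j ∈ Finset.range J, -f (X j ω) - J * ∫ x, -f x ∂μ} := by
    intro ω hω
    have hω' : J * ε ≤ |∑ j ∈ Finset.range J, f (X j ω) - J * ∫ x, f x ∂μ| := hω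
    rcases le_abs.1 hω' with h | h
    · exact Or.inl h
    · refine Or.inr ?_
      show J * ε ≤ ∑ j ∈ Finset.range J, -f (X j ω) - J * ∫ x, -f x ∂μ
      rw [integral_neg, Finset.sum_neg_distrib]
      linarith
  calc _ ≤ P.real ({ω | J * ε ≤ ∑ j ∈ Finset.range J, f (X j ω) - J * ∫ x, f x ∂μ} ∪
      {ω | J * ε ≤ ∑ j ∈ Finset.range J, -f (X j ω) - J * ∫ x, -f x ∂μ}) := measureReal_mono h3
    _ ≤ _ := measureReal_union_le _ _
    _ ≤ _ := by linarith

/-- Hoeffding's inequality for trigonometric sums -/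
lemma hoeff_exp [IsProbabilityMeasure μ] {X : ℕ → Ω → ℝ} (hX : ∀ j, Measurable (X j)) (hind : iIndepFun X P)
    (hlaw : ∀ j, P.map (X j) = μ) (v : ℝ) (J : ℕ) {ε : ℝ} (hε : 0 ≤ ε) :
    P.real {ω | J * ε ≤ ‖∑ j ∈ Finset.range J, exp (I * (v * X j ω)) - J * ∫ x : ℝ, exp (I * (v * x)) ∂μ‖} ≤
      4 * Real.exp (-(J * ε ^ 2 / 8)) := by
  have h1 := hoeff_abs hX hind hlaw (f := fun x => Real.cos (v * x)) (by fun_prop) (fun x => Real.abs_cos_le_one _) J
    (ε := ε / 2) (by positivity)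
  have h2 := hoeff_abs hX hind hlaw (f := fun x => Real.sin (v * x)) (by fun_prop) (fun x => Real.abs_sin_le_one _) J
    (ε := ε / 2) (by positivity)
  have hex : ∀ x : ℝ, exp (I * (v * x)) = (Real.cos (v * x) : ℂ) + (Real.sin (v * x) : ℂ) * I := by
    intro x
    rw [show I * ((v : ℂ) * x) = ((v * x : ℝ) : ℂ) * I by push_cast; ring, exp_mul_I]
    push_cast
    rfl
  have hic : Integrable (fun x : ℝ => Real.cos (v * x)) μ :=
    Integrable.of_bound (by fun_prop) 1 (Eventually.of_forall fun x => by simpa using Real.abs_cos_le_one _)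
  have his : Integrable (fun x : ℝ => Real.sin (v * x)) μ :=
    Integrable.of_bound (by fun_prop) 1 (Eventually.of_forall fun x => by simpa using Real.abs_sin_le_one _)
  have hint : ∫ x : ℝ, exp (I * (v * x)) ∂μ =
      ((∫ x : ℝ, Real.cos (v * x) ∂μ : ℝ) : ℂ) + ((∫ x : ℝ, Real.sin (v * x) ∂μ : ℝ) : ℂ) * I := by
    have i1 : Integrable (fun x : ℝ => ((Real.cos (v * x) : ℝ) : ℂ)) μ := hic.ofReal
    have i2 : Integrable (fun x : ℝ => ((Real.sin (v * x) : ℝ) : ℂ) * I) μ := Integrable.mul_const his.ofReal I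
    simp only [hex]
    rw [integral_add i1 i2, integral_mul_const, integral_complex_ofReal, integral_complex_ofReal]
  have hs : ∀ ω, ∑ j ∈ Finset.range J, exp (I * (v * X j ω)) - J * ∫ x : ℝ, exp (I * (v * x)) ∂μ =
      ((∑ j ∈ Finset.range J, Real.cos (v * X j ω) - J * ∫ x : ℝ, Real.cos (v * x) ∂μ : ℝ) : ℂ) +
      ((∑ j ∈ Finset.range J, Real.sin (v * X j ω) - J * ∫ x : ℝ, Real.sin (v * x) ∂μ : ℝ) : ℂ) * I := by
    intro ω
    rw [hint]
    simp only [hex, Finset.sum_add_distrib, ← Finset.sum_mul]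
    push_cast
    ring
  have h3 : {ω | J * ε ≤ ‖∑ j ∈ Finset.range J, exp (I * (v * X j ω)) - J * ∫ x : ℝ, exp (I * (v * x)) ∂μ‖} ⊆
      {ω | J * (ε / 2) ≤ |∑ j ∈ Finset.range J, Real.cos (v * X j ω) - J * ∫ x, Real.cos (v * x) ∂μ|} ∪
      {ω | J * (ε / 2) ≤ |∑ j ∈ Finset.range J, Real.sin (v * X j ω) - J * ∫ x, Real.sin (v * x) ∂μ|} := by
    intro ω hω
    by_contra hcon
    rw [mem_union, not_or] at hcon
    obtain ⟨c1, c2⟩ := hcon
    simp only [mem_setOf_eq, not_le] at c1 c2 hω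
    rw [hs ω] at hω
    have h4 := norm_add_le (((∑ j ∈ Finset.range J, Real.cos (v * X j ω) - J * ∫ x : ℝ, Real.cos (v * x) ∂μ : ℝ) : ℂ))
      (((∑ j ∈ Finset.range J, Real.sin (v * X j ω) - J * ∫ x : ℝ, Real.sin (v * x) ∂μ : ℝ) : ℂ) * I)
    rw [norm_mul, norm_I, mul_one, Complex.norm_real, Complex.norm_real, Real.norm_eq_abs, Real.norm_eq_abs] at h4
    linarith
  calc _ ≤ P.real ({ω | J * (ε / 2) ≤ |∑ j ∈ Finset.range J, Real.cos (v * X j ω) - J * ∫ x, Real.cos (v * x) ∂μ|} ∪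
      {ω | J * (ε / 2) ≤ |∑ j ∈ Finset.range J, Real.sin (v * X j ω) - J * ∫ x, Real.sin (v * x) ∂μ|}) :=
        measureReal_mono h3
    _ ≤ _ := measureReal_union_le _ _
    _ ≤ 2 * Real.exp (-(J * (ε / 2) ^ 2 / 2)) + 2 * Real.exp (-(J * (ε / 2) ^ 2 / 2)) := add_le_add h1 h2
    _ = _ := by
      have : (J * (ε / 2) ^ 2 / 2 : ℝ) = J * ε ^ 2 / 8 := by ring
      rw [this]; ring

end

end Pool.Agent.U52.RH
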