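import Mathlib

set_option autoImplicit false

/-! Random walks: an exponential bound for the martingale sums `∑ g (S_(u+j)) (X_(u+j))`. -/

namespace Pool.Agent.U52.RH

open Complex MeasureTheory Filter Topology Set ProbabilityTheory
open scoped ENNReal NNReal

noncomputable section

/-- partial sums of a sequence -/
def ps (x : ℕ → ℝ) (n : ℕ) : ℝ := ∑ i ∈ Finset.range n, x i

/-- the sums `∑ g (S_(u+j)) (x_(u+j))` -/
def ms (g : ℝ → ℝ → ℝ) (x : ℕ → ℝ) (u J : ℕ) : ℝ := ∑ j ∈ Finset.range J, g (ps x (u + j)) (x (u + j))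

/-- a tuple as a sequence -/
def ext (n : ℕ) (z : Finset.range n → ℝ) : ℕ → ℝ := fun i => if h : i ∈ Finset.range n then z ⟨i, h⟩ else 0

lemma ps_congr {x y : ℕ → ℝ} {n : ℕ} (h : ∀ i < n, x i = y i) : ps x n = ps y n :=
  Finset.sum_congr rfl fun i hi => h i (Finset.mem_range.1 hi)

lemma ms_congr (g : ℝ → ℝ → ℝ) {x y : ℕ → ℝ} {u J : ℕ} (h : ∀ i < u + J, x i = y i) : ms g x u J = ms g y u J := by
  refine Finset.sum_congr rfl fun j hj => ?_
  have hj' := Finset.mem_range.1 hj
  rw [ps_congr (fun i hi => h i (by omega)), h (u + j) (by omega)]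

lemma ext_eq (n : ℕ) (x : ℕ → ℝ) : ∀ i < n, ext n (fun i : Finset.range n => x i) i = x i := by
  intro i hi
  unfold ext
  rw [dif_pos (Finset.mem_range.2 hi)]

lemma ext_meas (n : ℕ) (i : ℕ) : Measurable fun z : Finset.range n → ℝ => ext n z i := by
  unfold ext
  by_cases h : i ∈ Finset.range n
  · simp only [dif_pos h]
    exact measurable_pi_apply _
  · simp only [dif_neg h]
    exact measurable_const

variable {Ω : Type*} [MeasurableSpace Ω] {P : Measure Ω} [IsProbabilityMeasure P] {μ : Measure ℝ}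

lemma ps_meas {E : Type*} [MeasurableSpace E] {x : E → ℕ → ℝ} (hx : ∀ i, Measurable fun z => x z i) (n : ℕ) :
    Measurable fun z => ps (x z) n := by
  unfold ps
  exact Finset.measurable_sum _ fun i _ => hx i

lemma ms_meas {E : Type*} [MeasurableSpace E] {x : E → ℕ → ℝ} (hx : ∀ i, Measurable fun z => x z i) {g : ℝ → ℝ → ℝ}
    (hg : Measurable (Function.uncurry g)) (u J : ℕ) : Measurable fun z => ms g (x z) u J := by
  unfold ms
  refine Finset.measurable_sum _ fun j _ => ?_
  exact hg.comp ((ps_meas hx (u + j)).prodMk (hx (u + j)))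

lemma ms_abs {g : ℝ → ℝ → ℝ} {B : ℝ} (hB : ∀ s x, |g s x| ≤ B) (x : ℕ → ℝ) (u J : ℕ) : |ms g x u J| ≤ J * B := by
  unfold ms
  refine (Finset.abs_sum_le_sum_abs _ _).trans ?_
  calc ∑ j ∈ Finset.range J, |g (ps x (u + j)) (x (u + j))| ≤ ∑ j ∈ Finset.range J, B := Finset.sum_le_sum fun j _ => hB _ _
    _ = _ := by simp

/-- the past is independent of the next step -/
lemma past_indep {X : ℕ → Ω → ℝ} (hX : ∀ j, Measurable (X j)) (hind : iIndepFun X P) {g : ℝ → ℝ → ℝ}
    (hg : Measurable (Function.uncurry g)) (u J : ℕ) :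
    IndepFun (fun ω => (ms g (fun i => X i ω) u J, ps (fun i => X i ω) (u + J))) (X (u + J)) P := by
  have h1 := hind.indepFun_finset (Finset.range (u + J)) {u + J} (by simp) hX
  have m1 : Measurable fun z : Finset.range (u + J) → ℝ => (ms g (ext (u + J) z) u J, ps (ext (u + J) z) (u + J)) :=
    (ms_meas (ext_meas (u + J)) hg u J).prodMk (ps_meas (ext_meas (u + J)) (u + J))
  have m2 : Measurable fun z : ({u + J} : Finset ℕ) → ℝ => z ⟨u + J, by simp⟩ := measurable_pi_apply _
  have h2 := h1.comp m1 m2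
  refine (h2.congr (ae_of_all _ fun ω => ?_) (ae_of_all _ fun ω => ?_))
  · show (ms g (ext (u + J) fun i : Finset.range (u + J) => X i ω) u J,
      ps (ext (u + J) fun i : Finset.range (u + J) => X i ω) (u + J)) = _
    have e := ext_eq (u + J) (fun i => X i ω)
    rw [ms_congr g e, ps_congr e]
  · rfl

/-- the exponential moment -/
lemma ms_mgf {X : ℕ → Ω → ℝ} (hX : ∀ j, Measurable (X j)) (hind : iIndepFun X P) (hlaw : ∀ j, P.map (X j) = μ)
    {g : ℝ → ℝ → ℝ} (hg : Measurable (Function.uncurry g)) {B : ℝ} (hB : ∀ s x, |g s x| ≤ B) (hB0 : 0 ≤ B)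
    (hmean : ∀ s, ∫ x, g s x ∂μ = 0) (u J : ℕ) (a : ℝ) :
    ∫ ω, Real.exp (a * ms g (fun i => X i ω) u J) ∂P ≤ Real.exp (J * (B ^ 2 * a ^ 2 / 2)) := by
  haveI : IsProbabilityMeasure μ := by
    rw [← hlaw 0]
    exact Measure.isProbabilityMeasure_map (hX 0).aemeasurable
  induction J with
  | zero => simp [ms]
  | succ J ih =>
    set Z : Ω → ℝ × ℝ := fun ω => (ms g (fun i => X i ω) u J, ps (fun i => X i ω) (u + J)) with hZ
    have hZm : Measurable Z := (ms_meas (x := fun ω i => X i ω) hX hg u J).prodMk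
      (ps_meas (x := fun ω i => X i ω) hX (u + J))
    have hpi := (past_indep hX hind hg u J).map_prod_eq_prod_map_map hZm.aemeasurable (hX (u + J)).aemeasurable
    rw [hlaw] at hpi
    haveI : IsProbabilityMeasure (P.map Z) := Measure.isProbabilityMeasure_map hZm.aemeasurable
    have e1 : ∀ ω, Real.exp (a * ms g (fun i => X i ω) u (J + 1)) =
        (fun q : (ℝ × ℝ) × ℝ => Real.exp (a * q.1.1) * Real.exp (a * g q.1.2 q.2)) (Z ω, X (u + J) ω) := by
      intro ω
      show _ = Real.exp (a * ms g (fun i => X i ω) u J) * Real.exp (a * g (ps (fun i => X i ω) (u + J)) (X (u + J) ω))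
      rw [← Real.exp_add]
      congr 1
      unfold ms
      rw [Finset.sum_range_succ]
      ring
    have hFm : Measurable fun q : (ℝ × ℝ) × ℝ => Real.exp (a * q.1.1) * Real.exp (a * g q.1.2 q.2) := by
      have : Measurable fun q : (ℝ × ℝ) × ℝ => g q.1.2 q.2 :=
        hg.comp ((measurable_snd.comp measurable_fst).prodMk measurable_snd)
      fun_prop
    have e2 : ∫ ω, Real.exp (a * ms g (fun i => X i ω) u (J + 1)) ∂P =
        ∫ q : (ℝ × ℝ) × ℝ, Real.exp (a * q.1.1) * Real.exp (a * g q.1.2 q.2) ∂((P.map Z).prod μ) := by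
      rw [← hpi, integral_map (hZm.prodMk (hX (u + J))).aemeasurable hFm.aestronglyMeasurable]
      exact integral_congr_ae (ae_of_all _ e1)
    have hbd : ∀ᵐ z ∂(P.map Z), |z.1| ≤ J * B := by
      refine (ae_map_iff hZm.aemeasurable (by measurability)).2 (ae_of_all _ fun ω => ?_)
      exact ms_abs hB _ u J
    have hint : Integrable (fun q : (ℝ × ℝ) × ℝ => Real.exp (a * q.1.1) * Real.exp (a * g q.1.2 q.2))
        ((P.map Z).prod μ) := by
      refine Integrable.of_bound hFm.aestronglyMeasurable (Real.exp (|a| * (J * B)) * Real.exp (|a| * B)) ?_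
      have h1 : ∀ᵐ q ∂((P.map Z).prod μ), |q.1.1| ≤ J * B := by
        have := (Measure.quasiMeasurePreserving_fst (μ := P.map Z) (ν := μ)).ae hbd
        exact this
      filter_upwards [h1] with q hq
      rw [Real.norm_eq_abs, abs_mul, Real.abs_exp, Real.abs_exp]
      refine mul_le_mul (Real.exp_le_exp.2 ?_) (Real.exp_le_exp.2 ?_) (Real.exp_pos _).le (Real.exp_pos _).le
      · refine (le_abs_self _).trans ?_
        rw [abs_mul]
        exact mul_le_mul_of_nonneg_left hq (abs_nonneg a)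
      · refine (le_abs_self _).trans ?_
        rw [abs_mul]
        exact mul_le_mul_of_nonneg_left (hB _ _) (abs_nonneg a)
    have hin : ∀ s : ℝ, ∫ x, Real.exp (a * g s x) ∂μ ≤ Real.exp (B ^ 2 * a ^ 2 / 2) := by
      intro s
      have h1 : HasSubgaussianMGF (fun x => g s x) ((‖B - -B‖₊ / 2) ^ 2) μ :=
        hasSubgaussianMGF_of_mem_Icc_of_integral_eq_zero
          (hg.comp (measurable_const.prodMk measurable_id)).aemeasurable
          (ae_of_all _ fun x => abs_le.1 (hB s x)) (hmean s)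
      have h2 := h1.mgf_le a
      unfold mgf at h2
      refine h2.trans (le_of_eq ?_)
      congr 1
      have e : (((‖B - -B‖₊ / 2) ^ 2 : ℝ≥0) : ℝ) = B ^ 2 := by
        push_cast
        rw [Real.norm_eq_abs, sub_neg_eq_add, ← two_mul, abs_mul, abs_of_nonneg hB0]
        norm_num
      rw [e]
    rw [e2, integral_prod _ hint]
    calc ∫ z, ∫ x, Real.exp (a * z.1) * Real.exp (a * g z.2 x) ∂μ ∂(P.map Z)
        = ∫ z, Real.exp (a * z.1) * ∫ x, Real.exp (a * g z.2 x) ∂μ ∂(P.map Z) := by
          simp only [integral_const_mul]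
      _ ≤ ∫ z, Real.exp (a * z.1) * Real.exp (B ^ 2 * a ^ 2 / 2) ∂(P.map Z) := by
          refine integral_mono_of_nonneg (ae_of_all _ fun z => ?_) ?_ (ae_of_all _ fun z => ?_)
          · exact mul_nonneg (Real.exp_pos _).le (integral_nonneg fun x => (Real.exp_pos _).le)
          · refine Integrable.mul_const ?_ _
            refine Integrable.of_bound (by fun_prop) (Real.exp (|a| * (J * B))) ?_
            filter_upwards [hbd] with z hz
            rw [Real.norm_eq_abs, Real.abs_exp]
            refine Real.exp_le_exp.2 ((le_abs_self _).trans ?_)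
            rw [abs_mul]
            exact mul_le_mul_of_nonneg_left hz (abs_nonneg a)
          · exact mul_le_mul_of_nonneg_left (hin z.2) (Real.exp_pos _).le
      _ = (∫ ω, Real.exp (a * ms g (fun i => X i ω) u J) ∂P) * Real.exp (B ^ 2 * a ^ 2 / 2) := by
          rw [integral_mul_const, integral_map hZm.aemeasurable (by fun_prop)]
      _ ≤ Real.exp (J * (B ^ 2 * a ^ 2 / 2)) * Real.exp (B ^ 2 * a ^ 2 / 2) :=
          mul_le_mul_of_nonneg_right ih (Real.exp_pos _).le
      _ = _ := by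
          rw [← Real.exp_add]
          congr 1
          push_cast
          ring

/-- the tail bound -/
lemma ms_tail {X : ℕ → Ω → ℝ} (hX : ∀ j, Measurable (X j)) (hind : iIndepFun X P) (hlaw : ∀ j, P.map (X j) = μ)
    {g : ℝ → ℝ → ℝ} (hg : Measurable (Function.uncurry g)) {B : ℝ} (hB : ∀ s x, |g s x| ≤ B) (hB0 : 0 < B)
    (hmean : ∀ s, ∫ x, g s x ∂μ = 0) (u J : ℕ) (hJ : 1 ≤ J) {x : ℝ} (hx : 0 ≤ x) :
    P.real {ω | x ≤ ms g (fun i => X i ω) u J} ≤ Real.exp (-(x ^ 2 / (2 * B ^ 2 * J))) := by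
  have hJr : (0:ℝ) < J := by exact_mod_cast hJ
  set a : ℝ := x / (B ^ 2 * J) with ha
  have ha0 : 0 ≤ a := by positivity
  have h1 := ms_mgf hX hind hlaw hg hB hB0.le hmean u J a
  have hm : Measurable fun ω => ms g (fun i => X i ω) u J := ms_meas (x := fun ω i => X i ω) hX hg u J
  have hint : Integrable (fun ω => Real.exp (a * ms g (fun i => X i ω) u J)) P := by
    refine Integrable.of_bound (Real.measurable_exp.comp (hm.const_mul a)).aestronglyMeasurable
      (Real.exp (|a| * (J * B))) (ae_of_all _ fun ω => ?_)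
    rw [Real.norm_eq_abs, Real.abs_exp]
    refine Real.exp_le_exp.2 ((le_abs_self _).trans ?_)
    rw [abs_mul]
    exact mul_le_mul_of_nonneg_left (ms_abs hB _ u J) (abs_nonneg a)
  have h2 := measure_ge_le_exp_mul_mgf (X := fun ω => ms g (fun i => X i ω) u J) (μ := P) x ha0 hint
  unfold mgf at h2
  refine h2.trans ?_
  calc Real.exp (-a * x) * ∫ ω, Real.exp (a * ms g (fun i => X i ω) u J) ∂P
      ≤ Real.exp (-a * x) * Real.exp (J * (B ^ 2 * a ^ 2 / 2)) := mul_le_mul_of_nonneg_left h1 (Real.exp_pos _).le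
    _ = _ := by
      rw [← Real.exp_add]
      congr 1
      rw [ha]
      field_simp
      ring

end

end Pool.Agent.U52.RH
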