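import Pool.Agent.U52.RH.Mart
import Pool.Agent.U52.RH.BC
import Pool.Agent.R461.HM.Seq

set_option autoImplicit false

/-! Random walks with positive drift: almost surely the sums of `exp (i λ S_n)` over all windows are small. -/

namespace Pool.Agent.U52.RH

open Complex MeasureTheory Filter Topology Set ProbabilityTheory
open scoped ENNReal NNReal
open Pool.Agent.R461.HM

noncomputable section

/-- the characteristic function -/
def cf (μ : Measure ℝ) (v : ℝ) : ℂ := ∫ x : ℝ, exp (I * (v * x)) ∂μ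

/-- the martingale part of the sum over a window -/
def mp (μ : Measure ℝ) (v : ℝ) (x : ℕ → ℝ) (u J : ℕ) : ℂ :=
  ∑ j ∈ Finset.range J, exp (I * (v * ps x (u + j))) * (exp (I * (v * x (u + j))) - cf μ v)

lemma exp_I_mul (v x : ℝ) : exp (I * (v * x)) = (Real.cos (v * x) : ℂ) + (Real.sin (v * x) : ℂ) * I := by
  rw [show I * ((v : ℂ) * x) = ((v * x : ℝ) : ℂ) * I by push_cast; ring, exp_mul_I]
  push_cast
  rfl

lemma norm_exp_I (v x : ℝ) : ‖exp (I * (v * x))‖ = 1 := by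
  rw [show I * ((v : ℂ) * x) = ((v * x : ℝ) : ℂ) * I by push_cast; ring, norm_exp_ofReal_mul_I]

lemma ps_succ (x : ℕ → ℝ) (n : ℕ) : ps x (n + 1) = ps x n + x n := Finset.sum_range_succ _ _

/-- the sum over a window and its martingale part -/
lemma window_eq (μ : Measure ℝ) (v : ℝ) (x : ℕ → ℝ) (u J : ℕ) :
    (1 - cf μ v) * ∑ j ∈ Finset.range J, exp (I * (v * ps x (u + j))) =
      mp μ v x u J + exp (I * (v * ps x u)) - exp (I * (v * ps x (u + J))) := by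
  induction J with
  | zero => simp [mp]
  | succ J ih =>
    have h1 : mp μ v x u (J + 1) = mp μ v x u J +
        exp (I * (v * ps x (u + J))) * (exp (I * (v * x (u + J))) - cf μ v) := by
      unfold mp
      rw [Finset.sum_range_succ]
    have h2 : exp (I * (v * ps x (u + (J + 1)))) = exp (I * (v * ps x (u + J))) * exp (I * (v * x (u + J))) := by
      rw [← add_assoc, ps_succ, ← Complex.exp_add]
      congr 1
      push_cast
      ring
    rw [Finset.sum_range_succ, mul_add, ih, h1, h2]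
    ring

lemma window_le {μ : Measure ℝ} {v c B : ℝ} (hc : 0 < c) (hv : v ≠ 0) (hcf : c * min 1 |v| ≤ ‖1 - cf μ v‖) (x : ℕ → ℝ)
    (u J : ℕ) (hB : ‖mp μ v x u J‖ ≤ B) :
    ‖∑ j ∈ Finset.range J, exp (I * (v * ps x (u + j)))‖ ≤ (B + 2) / c * (1 + 1 / |v|) := by
  have hv0 : 0 < |v| := abs_pos.2 hv
  have hm : 0 < min 1 |v| := lt_min one_pos hv0
  have h1 := congrArg norm (window_eq μ v x u J)
  rw [norm_mul] at h1
  have h2 : ‖mp μ v x u J + exp (I * (v * ps x u)) - exp (I * (v * ps x (u + J)))‖ ≤ B + 2 := by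
    refine (norm_sub_le _ _).trans ?_
    have := norm_add_le (mp μ v x u J) (exp (I * (v * ps x u)))
    rw [norm_exp_I] at this ⊢
    linarith
  have h3 : c * min 1 |v| * ‖∑ j ∈ Finset.range J, exp (I * (v * ps x (u + j)))‖ ≤ B + 2 := by
    refine le_trans ?_ h2
    rw [← h1]
    exact mul_le_mul_of_nonneg_right hcf (norm_nonneg _)
  have h4 : 1 / min 1 |v| ≤ 1 + 1 / |v| := by
    rcases le_total 1 |v| with h | h
    · rw [min_eq_left h]
      have : 0 ≤ 1 / |v| := by positivity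
      linarith
    · rw [min_eq_right h]
      linarith
  have hB2 : 0 ≤ B + 2 := by
    have := (norm_nonneg _).trans hB
    linarith
  calc ‖∑ j ∈ Finset.range J, exp (I * (v * ps x (u + j)))‖ ≤ (B + 2) / (c * min 1 |v|) := by
        rw [le_div_iff₀ (by positivity)]
        linarith
    _ = (B + 2) / c * (1 / min 1 |v|) := by field_simp
    _ ≤ _ := mul_le_mul_of_nonneg_left h4 (by positivity)

/-- the real part of a step -/
def gR (μ : Measure ℝ) (v : ℝ) (s x : ℝ) : ℝ :=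
  Real.cos (v * (s + x)) - (Real.cos (v * s) * ∫ y, Real.cos (v * y) ∂μ - Real.sin (v * s) * ∫ y, Real.sin (v * y) ∂μ)

/-- the imaginary part of a step -/
def gI (μ : Measure ℝ) (v : ℝ) (s x : ℝ) : ℝ :=
  Real.sin (v * (s + x)) - (Real.sin (v * s) * ∫ y, Real.cos (v * y) ∂μ + Real.cos (v * s) * ∫ y, Real.sin (v * y) ∂μ)

variable {Ω : Type*} [MeasurableSpace Ω] {P : Measure Ω} [IsProbabilityMeasure P] {μ : Measure ℝ} [IsProbabilityMeasure μ]

lemma icos (v : ℝ) : Integrable (fun x : ℝ => Real.cos (v * x)) μ :=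
  Integrable.of_bound (by fun_prop) 1 (Eventually.of_forall fun x => by simpa using Real.abs_cos_le_one _)

lemma isin (v : ℝ) : Integrable (fun x : ℝ => Real.sin (v * x)) μ :=
  Integrable.of_bound (by fun_prop) 1 (Eventually.of_forall fun x => by simpa using Real.abs_sin_le_one _)

lemma cf_eq (v : ℝ) : cf μ v = ((∫ y, Real.cos (v * y) ∂μ : ℝ) : ℂ) + ((∫ y, Real.sin (v * y) ∂μ : ℝ) : ℂ) * I := by
  have i1 : Integrable (fun x : ℝ => ((Real.cos (v * x) : ℝ) : ℂ)) μ := (icos v).ofReal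
  have i2 : Integrable (fun x : ℝ => ((Real.sin (v * x) : ℝ) : ℂ) * I) μ := Integrable.mul_const (isin v).ofReal I
  unfold cf
  simp only [exp_I_mul]
  rw [integral_add i1 i2, integral_mul_const, integral_complex_ofReal, integral_complex_ofReal]

lemma cosR (v s : ℝ) : ∫ y, Real.cos (v * (s + y)) ∂μ =
    Real.cos (v * s) * ∫ y, Real.cos (v * y) ∂μ - Real.sin (v * s) * ∫ y, Real.sin (v * y) ∂μ := by
  have e : ∀ y, Real.cos (v * (s + y)) = Real.cos (v * s) * Real.cos (v * y) - Real.sin (v * s) * Real.sin (v * y) := by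
    intro y
    rw [mul_add, Real.cos_add]
  simp only [e]
  rw [integral_sub ((icos v).const_mul _) ((isin v).const_mul _), integral_const_mul, integral_const_mul]

lemma sinR (v s : ℝ) : ∫ y, Real.sin (v * (s + y)) ∂μ =
    Real.sin (v * s) * ∫ y, Real.cos (v * y) ∂μ + Real.cos (v * s) * ∫ y, Real.sin (v * y) ∂μ := by
  have e : ∀ y, Real.sin (v * (s + y)) = Real.sin (v * s) * Real.cos (v * y) + Real.cos (v * s) * Real.sin (v * y) := by
    intro y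
    rw [mul_add, Real.sin_add]
  simp only [e]
  rw [integral_add ((icos v).const_mul _) ((isin v).const_mul _), integral_const_mul, integral_const_mul]

lemma abs_int_le (f : ℝ → ℝ) (hf : ∀ x, |f x| ≤ 1) : |∫ y, f y ∂μ| ≤ 1 := by
  have := norm_integral_le_of_norm_le_const (μ := μ) (f := f) (C := 1) (Eventually.of_forall fun x => by
    rw [Real.norm_eq_abs]; exact hf x)
  simpa using this

lemma gR_le (v s x : ℝ) : |gR μ v s x| ≤ 2 := by
  unfold gR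
  rw [← cosR]
  have h1 := Real.abs_cos_le_one (v * (s + x))
  have h2 := abs_int_le (μ := μ) (fun y => Real.cos (v * (s + y))) (fun y => Real.abs_cos_le_one _)
  rw [abs_le] at *
  constructor <;> linarith [h1.1, h1.2, h2.1, h2.2]

lemma gI_le (v s x : ℝ) : |gI μ v s x| ≤ 2 := by
  unfold gI
  rw [← sinR]
  have h1 := Real.abs_sin_le_one (v * (s + x))
  have h2 := abs_int_le (μ := μ) (fun y => Real.sin (v * (s + y))) (fun y => Real.abs_sin_le_one _)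
  rw [abs_le] at *
  constructor <;> linarith [h1.1, h1.2, h2.1, h2.2]

lemma icosS (v s : ℝ) : Integrable (fun x : ℝ => Real.cos (v * (s + x))) μ :=
  Integrable.of_bound (by fun_prop) 1 (Eventually.of_forall fun x => by simpa using Real.abs_cos_le_one _)

lemma isinS (v s : ℝ) : Integrable (fun x : ℝ => Real.sin (v * (s + x))) μ :=
  Integrable.of_bound (by fun_prop) 1 (Eventually.of_forall fun x => by simpa using Real.abs_sin_le_one _)

lemma gR_mean (v s : ℝ) : ∫ x, gR μ v s x ∂μ = 0 := by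
  unfold gR
  rw [integral_sub (icosS v s) (integrable_const _), cosR]
  simp

lemma gI_mean (v s : ℝ) : ∫ x, gI μ v s x ∂μ = 0 := by
  unfold gI
  rw [integral_sub (isinS v s) (integrable_const _), sinR]
  simp

lemma gR_meas (v : ℝ) : Measurable (Function.uncurry (gR μ v)) := by
  unfold gR Function.uncurry
  fun_prop

lemma gI_meas (v : ℝ) : Measurable (Function.uncurry (gI μ v)) := by
  unfold gI Function.uncurry
  fun_prop

lemma mp_eq (v : ℝ) (x : ℕ → ℝ) (u J : ℕ) :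
    mp μ v x u J = (ms (gR μ v) x u J : ℂ) + (ms (gI μ v) x u J : ℂ) * I := by
  unfold mp ms
  push_cast
  rw [Finset.sum_mul, ← Finset.sum_add_distrib]
  refine Finset.sum_congr rfl fun j _ => ?_
  rw [exp_I_mul, exp_I_mul, cf_eq]
  unfold gR gI
  rw [mul_add, Real.cos_add, Real.sin_add]
  push_cast
  ring_nf
  rw [I_sq]
  ring

lemma ms_neg (g : ℝ → ℝ → ℝ) (x : ℕ → ℝ) (u J : ℕ) : ms (fun s y => -g s y) x u J = -ms g x u J := by
  unfold ms
  rw [Finset.sum_neg_distrib]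

/-- the tail bound for the martingale part -/
lemma mp_tail {X : ℕ → Ω → ℝ} (hX : ∀ j, Measurable (X j)) (hind : iIndepFun X P) (hlaw : ∀ j, P.map (X j) = μ)
    (v : ℝ) (u J : ℕ) (hJ : 1 ≤ J) {x : ℝ} (hx : 0 ≤ x) :
    P.real {ω | x ≤ ‖mp μ v (fun i => X i ω) u J‖} ≤ 4 * Real.exp (-(x ^ 2 / (32 * J))) := by
  have hx2 : 0 ≤ x / 2 := by linarith
  have k1 := ms_tail hX hind hlaw (gR_meas v) (gR_le v) (by norm_num) (gR_mean v) u J hJ hx2
  have k2 := ms_tail hX hind hlaw (g := fun s y => -gR μ v s y) (gR_meas v).neg (B := 2)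
    (fun s y => by rw [abs_neg]; exact gR_le v s y) (by norm_num)
    (fun s => by rw [integral_neg, gR_mean, neg_zero]) u J hJ hx2
  have k3 := ms_tail hX hind hlaw (gI_meas v) (gI_le v) (by norm_num) (gI_mean v) u J hJ hx2
  have k4 := ms_tail hX hind hlaw (g := fun s y => -gI μ v s y) (gI_meas v).neg (B := 2)
    (fun s y => by rw [abs_neg]; exact gI_le v s y) (by norm_num)
    (fun s => by rw [integral_neg, gI_mean, neg_zero]) u J hJ hx2
  have hsub : {ω | x ≤ ‖mp μ v (fun i => X i ω) u J‖} ⊆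
      ({ω | x / 2 ≤ ms (gR μ v) (fun i => X i ω) u J} ∪ {ω | x / 2 ≤ ms (fun s y => -gR μ v s y) (fun i => X i ω) u J}) ∪
      ({ω | x / 2 ≤ ms (gI μ v) (fun i => X i ω) u J} ∪
        {ω | x / 2 ≤ ms (fun s y => -gI μ v s y) (fun i => X i ω) u J}) := by
    intro ω hω
    have hω' : x ≤ ‖mp μ v (fun i => X i ω) u J‖ := hω
    rw [mp_eq] at hω'
    have h4 := norm_add_le ((ms (gR μ v) (fun i => X i ω) u J : ℂ)) ((ms (gI μ v) (fun i => X i ω) u J : ℂ) * I)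
    rw [norm_mul, norm_I, mul_one, Complex.norm_real, Complex.norm_real, Real.norm_eq_abs, Real.norm_eq_abs] at h4
    by_contra hcon
    simp only [mem_union, mem_setOf_eq, not_or, not_le, ms_neg] at hcon
    obtain ⟨⟨a1, a2⟩, a3, a4⟩ := hcon
    have b1 : |ms (gR μ v) (fun i => X i ω) u J| < x / 2 := abs_lt.2 ⟨by linarith, a1⟩
    have b2 : |ms (gI μ v) (fun i => X i ω) u J| < x / 2 := abs_lt.2 ⟨by linarith, a3⟩
    linarith
  have e : (x / 2) ^ 2 / (2 * 2 ^ 2 * J) = x ^ 2 / (32 * J) := by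
    field_simp
    ring
  rw [e] at k1 k2 k3 k4
  refine (measureReal_mono hsub).trans ((measureReal_union_le _ _).trans ?_)
  have l1 := measureReal_union_le (μ := P) {ω | x / 2 ≤ ms (gR μ v) (fun i => X i ω) u J}
    {ω | x / 2 ≤ ms (fun s y => -gR μ v s y) (fun i => X i ω) u J}
  have l2 := measureReal_union_le (μ := P) {ω | x / 2 ≤ ms (gI μ v) (fun i => X i ω) u J}
    {ω | x / 2 ≤ ms (fun s y => -gI μ v s y) (fun i => X i ω) u J}
  linarith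

/-- the bad events -/
def badW {Ω : Type*} (X : ℕ → Ω → ℝ) (μ : Measure ℝ) (A γ : ℝ) (i : ℕ × ℕ × ℕ × ℕ) : Set Ω :=
  {ω | (1 ≤ i.1 ∧ (i.2.1 : ℝ) ≤ (i.1 : ℝ) ^ A ∧ (i.2.2.1 : ℝ) ≤ (i.1 : ℝ) ^ A ∧ (i.2.2.2 : ℝ) ≤ (i.1 : ℝ) ^ A) ∧
    (i.1 : ℝ) ^ (1 - γ) ≤ ‖mp μ (Real.log ((i.2.2.1 : ℝ) / i.2.2.2)) (fun j => X j ω) i.2.1 i.1‖}

lemma badW_prob {X : ℕ → Ω → ℝ} (hX : ∀ j, Measurable (X j)) (hind : iIndepFun X P) (hlaw : ∀ j, P.map (X j) = μ)
    {A γ : ℝ} (hA : 0 ≤ A) (hγ : γ < 1 / 2) :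
    ∃ C : ℝ, 0 < C ∧ ∀ i : ℕ × ℕ × ℕ × ℕ, P.real (badW X μ A γ i) ≤
      C * (1 / ((i.1 : ℝ) + 1) ^ 2 * (1 / ((i.2.1 : ℝ) + 1) ^ 2 * (1 / ((i.2.2.1 : ℝ) + 1) ^ 2 *
        (1 / ((i.2.2.2 : ℝ) + 1) ^ 2)))) := by
  obtain ⟨C, hC, hexp⟩ := exp_neg_le_rpow (c := 1 / 32) (β := 1 - 2 * γ) (A := 2 + 6 * A) (by norm_num) (by linarith)
  refine ⟨4 * C * 256, by positivity, ?_⟩
  rintro ⟨J, u, m, l⟩
  simp only
  by_cases hc : 1 ≤ J ∧ (u : ℝ) ≤ (J : ℝ) ^ A ∧ (m : ℝ) ≤ (J : ℝ) ^ A ∧ (l : ℝ) ≤ (J : ℝ) ^ A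
  · obtain ⟨hJ, hu, hm, hl⟩ := hc
    have hJ1 : (1:ℝ) ≤ J := by exact_mod_cast hJ
    have hJ0 : (0:ℝ) < J := by linarith
    have hJA : 1 ≤ (J:ℝ) ^ A := Real.one_le_rpow hJ1 hA
    have h1 : P.real (badW X μ A γ (J, u, m, l)) ≤ 4 * Real.exp (-(((J : ℝ) ^ (1 - γ)) ^ 2 / (32 * J))) := by
      refine le_trans (measureReal_mono ?_) (mp_tail hX hind hlaw (Real.log ((m : ℝ) / l)) u J hJ
        (x := (J : ℝ) ^ (1 - γ)) (by positivity))
      intro ω hω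
      exact hω.2
    have h2 : ((J : ℝ) ^ (1 - γ)) ^ 2 / (32 * J) = 1 / 32 * (J:ℝ) ^ (1 - 2 * γ) := by
      have e1 : ((J : ℝ) ^ (1 - γ)) ^ 2 = (J:ℝ) ^ (1 - 2 * γ) * J := by
        rw [← Real.rpow_natCast, ← Real.rpow_mul hJ0.le]
        nth_rewrite 3 [← Real.rpow_one (J:ℝ)]
        rw [← Real.rpow_add hJ0]
        congr 1; push_cast; ring
      rw [e1]
      field_simp
    have h3 : Real.exp (-(((J : ℝ) ^ (1 - γ)) ^ 2 / (32 * J))) ≤ C * (J:ℝ) ^ (-(2 + 6 * A)) := by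
      rw [h2]
      exact hexp J hJ1
    have q : ∀ w : ℕ, (w : ℝ) ≤ (J : ℝ) ^ A → ((w:ℝ) + 1) ^ 2 ≤ 4 * ((J:ℝ) ^ A) ^ 2 := by
      intro w hw
      have h5 : (w:ℝ) + 1 ≤ 2 * (J:ℝ) ^ A := by linarith
      calc ((w:ℝ) + 1) ^ 2 ≤ (2 * (J:ℝ) ^ A) ^ 2 := pow_le_pow_left₀ (by positivity) h5 2
        _ = _ := by ring
    have h4 : ((J:ℝ) + 1) ^ 2 * (((u:ℝ) + 1) ^ 2 * (((m:ℝ) + 1) ^ 2 * ((l:ℝ) + 1) ^ 2)) ≤
        256 * (J:ℝ) ^ (2 + 6 * A) := by
      have f1 : ((J:ℝ) + 1) ^ 2 ≤ 4 * (J:ℝ) ^ 2 := by nlinarith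
      have f7 : (J:ℝ) ^ (2 + 6 * A) = (J:ℝ) ^ 2 * (((J:ℝ) ^ A) ^ 2 * (((J:ℝ) ^ A) ^ 2 * ((J:ℝ) ^ A) ^ 2)) := by
        rw [Real.rpow_add hJ0, ← pow_add, ← pow_add, ← Real.rpow_natCast ((J:ℝ) ^ A), ← Real.rpow_mul hJ0.le]
        congr 1
        · rw [← Real.rpow_natCast]; norm_num
        · congr 1; push_cast; ring
      calc ((J:ℝ) + 1) ^ 2 * (((u:ℝ) + 1) ^ 2 * (((m:ℝ) + 1) ^ 2 * ((l:ℝ) + 1) ^ 2))
          ≤ (4 * (J:ℝ) ^ 2) * ((4 * ((J:ℝ) ^ A) ^ 2) * ((4 * ((J:ℝ) ^ A) ^ 2) * (4 * ((J:ℝ) ^ A) ^ 2))) := by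
            refine mul_le_mul f1 (mul_le_mul (q u hu) (mul_le_mul (q m hm) (q l hl) (by positivity) (by positivity))
              (by positivity) (by positivity)) (by positivity) (by positivity)
        _ = _ := by rw [f7]; ring
    have hD : 0 < ((J:ℝ) + 1) ^ 2 * (((u:ℝ) + 1) ^ 2 * (((m:ℝ) + 1) ^ 2 * ((l:ℝ) + 1) ^ 2)) := by positivity
    have e5 : 4 * C * 256 * (1 / ((J : ℝ) + 1) ^ 2 * (1 / ((u : ℝ) + 1) ^ 2 * (1 / ((m : ℝ) + 1) ^ 2 *
        (1 / ((l : ℝ) + 1) ^ 2)))) = 4 * C * 256 /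
          (((J:ℝ) + 1) ^ 2 * (((u:ℝ) + 1) ^ 2 * (((m:ℝ) + 1) ^ 2 * ((l:ℝ) + 1) ^ 2))) := by
      field_simp
    rw [e5, le_div_iff₀ hD]
    have hJA' : 0 < (J:ℝ) ^ (2 + 6 * A) := by positivity
    have h5 : P.real (badW X μ A γ (J, u, m, l)) ≤ 4 * C * ((J:ℝ) ^ (2 + 6 * A))⁻¹ := by
      rw [Real.rpow_neg hJ0.le] at h3
      linarith
    calc _ ≤ 4 * C * ((J:ℝ) ^ (2 + 6 * A))⁻¹ * (256 * (J:ℝ) ^ (2 + 6 * A)) :=
          mul_le_mul h5 h4 hD.le (by positivity)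
      _ = _ := by field_simp
  · have hempty : badW X μ A γ (J, u, m, l) = ∅ := by
      ext ω
      simp only [mem_empty_iff_false, iff_false]
      intro hω
      exact hc hω.1
    rw [hempty, measureReal_empty]
    positivity

lemma ae_goodW {X : ℕ → Ω → ℝ} (hX : ∀ j, Measurable (X j)) (hind : iIndepFun X P) (hlaw : ∀ j, P.map (X j) = μ)
    {A γ : ℝ} (hA : 0 ≤ A) (hγ : γ < 1 / 2) :
    ∀ᵐ ω ∂P, ∃ J₀ : ℕ, 1 ≤ J₀ ∧ ∀ J : ℕ, J₀ ≤ J → ∀ u m l : ℕ, (u : ℝ) ≤ (J : ℝ) ^ A → (m : ℝ) ≤ (J : ℝ) ^ A →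
      (l : ℝ) ≤ (J : ℝ) ^ A → ‖mp μ (Real.log ((m : ℝ) / l)) (fun j => X j ω) u J‖ ≤ (J : ℝ) ^ (1 - γ) := by
  obtain ⟨C, hC, hb⟩ := badW_prob hX hind hlaw hA hγ
  have hnn : ∀ x : ℕ, 0 ≤ 1 / ((x : ℝ) + 1) ^ 2 := fun x => by positivity
  have hs : Summable fun i : ℕ × ℕ × ℕ × ℕ => C * (1 / ((i.1 : ℝ) + 1) ^ 2 * (1 / ((i.2.1 : ℝ) + 1) ^ 2 *
      (1 / ((i.2.2.1 : ℝ) + 1) ^ 2 * (1 / ((i.2.2.2 : ℝ) + 1) ^ 2)))) := by
    have h1 := summable_aux.mul_of_nonneg summable_aux hnn hnn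
    have h2 := summable_aux.mul_of_nonneg h1 hnn (fun x => by dsimp only; positivity)
    have h3 := summable_aux.mul_of_nonneg h2 hnn (fun x => by dsimp only; positivity)
    exact h3.mul_left C
  have hfin : ∑' i, P (badW X μ A γ i) ≠ ∞ := by
    have h1 : ∀ i, P (badW X μ A γ i) ≤ ENNReal.ofReal (C * (1 / ((i.1 : ℝ) + 1) ^ 2 * (1 / ((i.2.1 : ℝ) + 1) ^ 2 *
        (1 / ((i.2.2.1 : ℝ) + 1) ^ 2 * (1 / ((i.2.2.2 : ℝ) + 1) ^ 2))))) := by
      intro i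
      rw [← ofReal_measureReal]
      exact ENNReal.ofReal_le_ofReal (hb i)
    refine ne_top_of_le_ne_top ?_ (ENNReal.tsum_le_tsum h1)
    exact hs.tsum_ofReal_ne_top
  filter_upwards [ae_finite_setOfPred_mem hfin] with ω hω
  obtain ⟨N, hN⟩ := (hω.image (fun i : ℕ × ℕ × ℕ × ℕ => i.1)).bddAbove
  refine ⟨N + 1, by omega, fun J hJ u m l hu hm hl => ?_⟩
  by_contra hcon
  rw [not_le] at hcon
  have h1 : ω ∈ badW X μ A γ (J, u, m, l) := ⟨⟨by simp only; omega, hu, hm, hl⟩, hcon.le⟩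
  have h2 : J ≤ N := hN ⟨(J, u, m, l), h1, rfl⟩
  omega

end

end Pool.Agent.U52.RH
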